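import Pool.Agent.R892.BR.Approx
import Pool.Agent.Y282.RB.A1

/-! # Schwartz functions of one angular type -/

set_option autoImplicit false

open Set MeasureTheory Filter Topology Polynomial
open scoped SchwartzMap ContDiff ENNReal

namespace Pool.Agent.R892.BR

open Pool.Agent.Y282.RB (Tn)
open Pool.Agent.Y282.RB.A2
open Pool.Agent.Y282.RB.K (adm_sy Tn_eq Tn_add exists_cut tendsto_trunc)

/-- truncations of functions of one angular type -/
theorem exists_trunc' (u : ℂ →+* ℂ) (hu1 : ∀ z, ‖u z‖ = ‖z‖) (hu2 : ∀ r : ℝ, u r = r)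
    (hu3 : ContDiff ℝ ∞ u) (m : ℕ) (f : 𝓢(ℂ, ℂ))
    (hf : ∀ a z : ℂ, ‖a‖ = 1 → f (a * z) = u a ^ m * f z) (ε : ℝ) (h0 : 0 < ε) (h1 : ε < 1) :
    ∃ (R : ℝ) (ψ : DD (ε / 2) R) (g : 𝓢(ℂ, ℂ)), ε / 2 ≤ R ∧
      (∀ z, g z = u z ^ m * ψ.1 (Complex.normSq z)) ∧ (∀ z, ‖(f - g) z‖ ≤ ‖f z‖) ∧
      ∀ z, ε ≤ Complex.normSq z → Complex.normSq z ≤ 1 / ε → (f - g) z = 0 := by
  obtain ⟨χ, R, hχ1, hχ2, hχ3, hχ4, hχ5, hχ6⟩ := exists_cut ε h0 h1
  set g : ℝ → ℂ := fun x => (χ x : ℂ) * (f ((√x : ℝ) : ℂ) * ((√x : ℝ) ^ m : ℂ)⁻¹) with hg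
  have hgs : ContDiff ℝ ∞ g := by
    rw [contDiff_iff_contDiffAt]
    intro x
    rcases lt_or_ge x (ε / 2) with hx | hx
    · refine (contDiffAt_const (c := (0 : ℂ))).congr_of_eventuallyEq ?_
      filter_upwards [Iio_mem_nhds hx] with y hy
      simp only [hg]
      rw [hχ5 y (le_of_lt hy)]
      simp
    · have hx0 : 0 < x := by linarith
      have e1 : ContDiffAt ℝ ∞ (fun x : ℝ => ((√x : ℝ) : ℂ)) x :=
        Complex.ofRealCLM.contDiff.contDiffAt.comp x (Real.contDiffAt_sqrt hx0.ne')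
      refine ContDiffAt.mul ?_ (ContDiffAt.mul ?_ ?_)
      · exact (Complex.ofRealCLM.contDiff.comp hχ1).contDiffAt
      · exact ((f.smooth ⊤).contDiffAt).comp x e1
      · refine ContDiffAt.inv (e1.pow m) ?_
        exact pow_ne_zero _ (Complex.ofReal_ne_zero.2 (Real.sqrt_pos.2 hx0).ne')
  have hmem : g ∈ DD (ε / 2) (max R (ε / 2)) := by
    refine ⟨hgs, fun s hs => ?_⟩
    simp only [hg]
    rcases hs with hs | hs
    · rw [hχ5 s hs.le]
      simp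
    · rw [hχ6 s (le_of_lt (lt_of_le_of_lt (le_max_left _ _) hs))]
      simp
  have hrad : ∀ z, u z ^ m * g (Complex.normSq z) = (χ (Complex.normSq z) : ℂ) * f z := by
    intro z
    simp only [hg]
    by_cases hz : z = 0
    · subst hz
      rw [map_zero Complex.normSq, hχ5 0 (by linarith)]
      simp
    · have hn : (‖z‖ : ℂ) ≠ 0 := Complex.ofReal_ne_zero.2 (norm_ne_zero_iff.2 hz)
      have h2 : √(Complex.normSq z) = ‖z‖ := rfl
      have ha : ‖z / (‖z‖ : ℂ)‖ = 1 := by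
        rw [norm_div, Complex.norm_real, norm_norm]
        exact div_self (norm_ne_zero_iff.2 hz)
      have h3 := hf (z / (‖z‖ : ℂ)) (‖z‖ : ℂ) ha
      rw [div_mul_cancel₀ _ hn, map_div₀, hu2] at h3
      rw [h2, h3, div_pow]
      field_simp
  have hrs : ContDiff ℝ ∞ (fun z => u z ^ m * g (Complex.normSq z)) :=
    (hu3.pow m).mul (hgs.comp contDiff_normSq)
  have hrc : HasCompactSupport (fun z => u z ^ m * g (Complex.normSq z)) := by
    refine HasCompactSupport.intro (isCompact_closedBall (0 : ℂ) (max R 1)) fun z hz => ?_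
    rw [Metric.mem_closedBall, dist_zero_right, not_le] at hz
    rw [hrad z, hχ6 _ ?_]
    · simp
    · rw [Complex.normSq_eq_norm_sq]
      have h2 : R < ‖z‖ := lt_of_le_of_lt (le_max_left _ _) hz
      have h3 : 1 < ‖z‖ := lt_of_le_of_lt (le_max_right _ _) hz
      nlinarith
  refine ⟨max R (ε / 2), ⟨g, hmem⟩, hrc.toSchwartzMap hrs, le_max_right _ _, fun z => rfl,
    fun z => ?_, fun z hz1 hz2 => ?_⟩
  · show ‖f z - u z ^ m * g (Complex.normSq z)‖ ≤ ‖f z‖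
    have e : f z - u z ^ m * g (Complex.normSq z) = ((1 - χ (Complex.normSq z) : ℝ) : ℂ) * f z := by
      rw [hrad z]
      push_cast
      ring
    rw [e, norm_mul, Complex.norm_real, Real.norm_of_nonneg (by linarith [(hχ3 (Complex.normSq z)).2])]
    exact mul_le_of_le_one_left (norm_nonneg _) (by linarith [(hχ3 (Complex.normSq z)).1])
  · show f z - u z ^ m * g (Complex.normSq z) = 0
    rw [hrad z, hχ4 _ hz1 hz2]
    simp

/-- reduction of a class to truncated functions -/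
theorem class_red (u : ℂ →+* ℂ) (hu1 : ∀ z, ‖u z‖ = ‖z‖) (hu2 : ∀ r : ℝ, u r = r)
    (hu3 : ContDiff ℝ ∞ u) (n m : ℕ) (hn : 1 ≤ n) (p : ℝ) (hp : 2 ≤ p) (C : ℝ)
    (H : ∀ (δ R : ℝ) (ψ : DD δ R) (g : 𝓢(ℂ, ℂ)), 0 < δ → δ ≤ R →
      (∀ z, g z = u z ^ m * ψ.1 (Complex.normSq z)) →
      eLpNorm (Tn n g) (ENNReal.ofReal p) (volume : Measure ℂ) ≤
      ENNReal.ofReal C * eLpNorm g (ENNReal.ofReal p) volume)
    (f : 𝓢(ℂ, ℂ)) (hf : ∀ a z : ℂ, ‖a‖ = 1 → f (a * z) = u a ^ m * f z) :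
    eLpNorm (Tn n f) (ENNReal.ofReal p) (volume : Measure ℂ) ≤
      ENNReal.ofReal C * eLpNorm f (ENNReal.ofReal p) volume := by
  have hk : ∀ k : ℕ, (0 : ℝ) < 1 / ((k : ℝ) + 2) ∧ 1 / ((k : ℝ) + 2) < 1 := by
    intro k
    have : (0 : ℝ) ≤ k := Nat.cast_nonneg k
    refine ⟨by positivity, ?_⟩
    rw [div_lt_one (by linarith)]
    linarith
  choose R ψ g hR hg hle hz using fun k : ℕ =>
    exists_trunc' u hu1 hu2 hu3 m f hf (1 / ((k : ℝ) + 2)) (hk k).1 (hk k).2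
  refine closure_bound n hn p hp C f g (fun k => ?_) ?_
  · exact H _ _ (ψ k) (g k) (by linarith [(hk k).1]) (hR k) (hg k)
  · refine tendsto_trunc f (fun k => f - g k) p hp (fun k z => hle k z) fun k z hz1 hz2 => ?_
    refine hz k z hz1 ?_
    rw [one_div_one_div]
    exact hz2

/-- non-positive frequencies -/
theorem class_neg (n m : ℕ) (hn : 1 ≤ n) (p : ℝ) (hp : 2 ≤ p) (K : ℝ) (hK : 0 ≤ K)
    (H : OneDim n m p K) (f : 𝓢(ℂ, ℂ))
    (hf : ∀ a z : ℂ, ‖a‖ = 1 → f (a * z) = ((starRingEnd ℂ) a) ^ m * f z) :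
    eLpNorm (Tn n f) (ENNReal.ofReal p) (volume : Measure ℂ) ≤
      ENNReal.ofReal (K ^ (1 / p)) * eLpNorm f (ENNReal.ofReal p) volume :=
  class_red (starRingEnd ℂ) (fun z => RCLike.norm_conj z) (fun r => Complex.conj_ofReal r)
    Complex.conjCLE.contDiff n m hn p hp _
    (fun δ R ψ g h1 h2 hg => stepA n m hn p hp K hK H δ R h1 h2 ψ g hg) f hf

theorem Tn_shift (n k : ℕ) (hk : k ≤ n) (G : 𝓢(ℂ, ℂ)) (z : ℂ) :
    Tn n (db^[k] G) z = Tn (n - k) (dd^[k] G) z := by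
  unfold Tn
  refine integral_congr_ae ?_
  have h0 : ∀ᵐ ξ : ℂ, ξ ≠ 0 := by
    rw [ae_iff]
    simp
  filter_upwards [h0] with ξ hξ
  rw [Ft_eq, Ft_eq, four_db_iter, four_dd_iter]
  congr 1
  have e : n = n - k + k := by omega
  have e2 : (starRingEnd ℂ ξ / ξ) ^ n = (starRingEnd ℂ ξ / ξ) ^ (n - k) * (starRingEnd ℂ ξ / ξ) ^ k := by
    rw [← pow_add, ← e]
  have e3 : (starRingEnd ℂ ξ / ξ) ^ k * (Real.pi * Complex.I * ξ) ^ k =
      (Real.pi * Complex.I * (starRingEnd ℂ) ξ) ^ k := by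
    rw [← mul_pow]
    congr 1
    field_simp
  rw [e2, ← e3]
  ring

theorem Tn_zero (f : 𝓢(ℂ, ℂ)) : Tn 0 f = f := by
  funext z
  exact Tn_db 0 f z

/-- frequencies between `0` and `n` on nice functions -/
theorem pos_red (n k : ℕ) (hk : k ≤ n) (δ R : ℝ) (ψ : DD δ R) (hδ : 0 < δ)
    (g : 𝓢(ℂ, ℂ)) (hg : ∀ z, g z = z ^ k * ψ.1 (Complex.normSq z)) :
    Tn n g = Tn (n - k) (cj g) := by
  have hc : HasCompactSupport ψ.1 := by
    refine HasCompactSupport.intro (isCompact_Icc (a := δ) (b := R)) fun x hx => ?_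
    apply ψ.2.2
    by_contra hcon
    push Not at hcon
    exact hx ⟨hcon.1, hcon.2⟩
  obtain ⟨Ψ, hΨ1, ⟨R', hR'⟩, hΨ2⟩ := Pool.Agent.Y282.RB.A1.main k ψ.1 ψ.2.1 hc
  obtain ⟨G, hG⟩ := exists_schwartz 0 Ψ hΨ1 R' hR'
  have e1 : g = db^[k] G := by
    ext z
    rw [db_iter hΨ1 hG k z, hΨ2, hg z, zero_add]
  have e2 : cj G = G := by
    ext z
    rw [cj_apply, hG, hG, Complex.normSq_conj, pow_zero, pow_zero]
  have e3 : dd^[k] G = cj g := by
    rw [e1, ← dd_cj_iter, e2]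
  funext z
  rw [e1, Tn_shift n k hk G z, e3, ← e1]

/-- frequencies between `0` and `n` -/
theorem class_pos (n k : ℕ) (hn : 1 ≤ n) (hk : k ≤ n) (p : ℝ) (hp : 2 ≤ p) (K : ℝ) (hK : 1 ≤ K)
    (H : 1 ≤ n - k → OneDim (n - k) k p K) (f : 𝓢(ℂ, ℂ))
    (hf : ∀ a z : ℂ, ‖a‖ = 1 → f (a * z) = a ^ k * f z) :
    eLpNorm (Tn n f) (ENNReal.ofReal p) (volume : Measure ℂ) ≤
      ENNReal.ofReal (K ^ (1 / p)) * eLpNorm f (ENNReal.ofReal p) volume := by
  refine class_red (RingHom.id ℂ) (fun z => rfl) (fun r => rfl) contDiff_id n k hn p hp _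
    (fun δ R ψ g h1 h2 hg => ?_) f hf
  rw [pos_red n k hk δ R ψ h1 g hg]
  have e : eLpNorm g (ENNReal.ofReal p) (volume : Measure ℂ) =
      eLpNorm (cj g) (ENNReal.ofReal p) (volume : Measure ℂ) := by
    apply eLpNorm_congr_norm_ae
    refine Eventually.of_forall fun z => ?_
    have hg' : ∀ z, g z = z ^ k * ψ.1 (Complex.normSq z) := hg
    rw [cj_apply, hg', hg', Complex.normSq_conj, norm_mul, norm_mul, norm_pow, norm_pow,
      RCLike.norm_conj]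
  rw [e]
  rcases Nat.eq_zero_or_pos (n - k) with h | h
  · rw [h, Tn_zero]
    have : (1 : ℝ≥0∞) ≤ ENNReal.ofReal (K ^ (1 / p)) := by
      rw [← ENNReal.ofReal_one]
      exact ENNReal.ofReal_le_ofReal (Real.one_le_rpow hK (by positivity))
    exact le_mul_of_one_le_left (zero_le) this
  · refine stepA (n - k) k h p hp K (by linarith) (H h) δ R h1 h2 ψ (cj g) fun z => ?_
    have hg' : ∀ z, g z = z ^ k * ψ.1 (Complex.normSq z) := hg
    rw [cj_apply, hg', Complex.normSq_conj]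

end Pool.Agent.R892.BR
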