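import Pool.Agent.R892.BR.Alg
import Pool.Agent.Y282.RB.A2
import Pool.Agent.Y282.RB.A3

/-! # From the half-line to the plane -/

set_option autoImplicit false

open Set MeasureTheory Filter Topology Polynomial
open scoped SchwartzMap ContDiff

namespace Pool.Agent.R892.BR

open Pool.Agent.Y282.RB (Tn)
open Pool.Agent.Y282.RB.A2

/-- reflection of the variable -/
noncomputable def cj (f : 𝓢(ℂ, ℂ)) : 𝓢(ℂ, ℂ) :=
  SchwartzMap.compCLMOfContinuousLinearEquiv ℂ Complex.conjCLE f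

theorem cj_apply (f : 𝓢(ℂ, ℂ)) (z : ℂ) : cj f z = f ((starRingEnd ℂ) z) := rfl

theorem fderiv_cj (f : 𝓢(ℂ, ℂ)) (z v : ℂ) :
    fderiv ℝ (cj f) z v = fderiv ℝ f ((starRingEnd ℂ) z) ((starRingEnd ℂ) v) := by
  have h1 : HasFDerivAt f (fderiv ℝ f ((starRingEnd ℂ) z)) ((starRingEnd ℂ) z) :=
    (f.differentiable _).hasFDerivAt
  have h2 : HasFDerivAt (fun z : ℂ => Complex.conjCLE z) (Complex.conjCLE : ℂ →L[ℝ] ℂ) z :=
    (Complex.conjCLE : ℂ →L[ℝ] ℂ).hasFDerivAt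
  have h1' : HasFDerivAt f (fderiv ℝ f ((starRingEnd ℂ) z)) (Complex.conjCLE z) := h1
  have h3 : HasFDerivAt (fun z : ℂ => f (Complex.conjCLE z))
      ((fderiv ℝ f ((starRingEnd ℂ) z)).comp (Complex.conjCLE : ℂ →L[ℝ] ℂ)) z :=
    HasFDerivAt.comp z h1' h2
  have h4 : HasFDerivAt (cj f)
      ((fderiv ℝ f ((starRingEnd ℂ) z)).comp (Complex.conjCLE : ℂ →L[ℝ] ℂ)) z := h3
  rw [h4.fderiv]
  rfl

theorem db_cj (f : 𝓢(ℂ, ℂ)) : db (cj f) = cj (dd f) := by
  ext z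
  rw [db_apply, cj_apply, dd_apply, fderiv_cj, fderiv_cj, map_one, Complex.conj_I, map_neg]
  ring

theorem dd_cj (f : 𝓢(ℂ, ℂ)) : dd (cj f) = cj (db f) := by
  ext z
  rw [dd_apply, cj_apply, db_apply, fderiv_cj, fderiv_cj, map_one, Complex.conj_I, map_neg]
  ring

theorem db_cj_iter (f : 𝓢(ℂ, ℂ)) (n : ℕ) : db^[n] (cj f) = cj (dd^[n] f) := by
  induction n with
  | zero => rfl
  | succ n ih => rw [Function.iterate_succ_apply', ih, db_cj, Function.iterate_succ_apply']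

theorem dd_cj_iter (f : 𝓢(ℂ, ℂ)) (n : ℕ) : dd^[n] (cj f) = cj (db^[n] f) := by
  induction n with
  | zero => rfl
  | succ n ih => rw [Function.iterate_succ_apply', ih, dd_cj, Function.iterate_succ_apply']

theorem contDiff_normSq : ContDiff ℝ ∞ (Complex.normSq : ℂ → ℝ) := by
  have e : (Complex.normSq : ℂ → ℝ) = fun z => z.re * z.re + z.im * z.im := by
    funext z
    exact Complex.normSq_apply z
  rw [e]
  exact (Complex.reCLM.contDiff.mul Complex.reCLM.contDiff).add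
    (Complex.imCLM.contDiff.mul Complex.imCLM.contDiff)

theorem exists_schwartz (a : ℕ) (h : ℝ → ℂ) (hh : ContDiff ℝ ∞ h) (R : ℝ) (hR : ∀ x, R ≤ x → h x = 0) :
    ∃ f : 𝓢(ℂ, ℂ), ∀ z, f z = z ^ a * h (Complex.normSq z) := by
  have hs : ContDiff ℝ ∞ (fun z : ℂ => z ^ a * h (Complex.normSq z)) :=
    (contDiff_id.pow a).mul (hh.comp contDiff_normSq)
  have hc : HasCompactSupport (fun z : ℂ => z ^ a * h (Complex.normSq z)) := by
    refine HasCompactSupport.intro (isCompact_closedBall (0 : ℂ) (|R| + 1)) fun w hw => ?_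
    rw [Metric.mem_closedBall, dist_zero_right, not_le] at hw
    have h1 : R ≤ Complex.normSq w := by
      rw [Complex.normSq_eq_norm_sq]
      nlinarith [le_abs_self R, abs_nonneg R]
    rw [hR _ h1, mul_zero]
  exact ⟨hc.toSchwartzMap hs, fun _ => rfl⟩

theorem norm_form {δ R : ℝ} (h : DD δ R) (m : ℕ) (P : ℂ[X]) (f : ℂ → ℂ)
    (p : ℝ) (hp : 1 ≤ p)
    (hf : ∀ z : ℂ, z ≠ 0 → ‖f z‖ = ‖z‖ ^ m * ‖yy h P (Complex.normSq z)‖) :
    eLpNorm f (ENNReal.ofReal p) (volume : Measure ℂ) =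
      ENNReal.ofReal ((Real.pi * ∫ s in Ioi (0 : ℝ),
        ‖((s ^ ((m : ℝ) / 2) : ℝ) : ℂ) * yy h P s‖ ^ p) ^ (1 / p)) := by
  have hc : Continuous (fun s : ℝ => ‖((s ^ ((m : ℝ) / 2) : ℝ) : ℂ) * yy h P s‖) := by
    have h1 : Continuous (fun s : ℝ => s ^ ((m : ℝ) / 2)) := Real.continuous_rpow_const (by positivity)
    exact ((Complex.continuous_ofReal.comp h1).mul (yy_diff h P).continuous).norm
  have h3 := Pool.Agent.Y282.RB.A3.main p hp
    (fun s : ℝ => ‖((s ^ ((m : ℝ) / 2) : ℝ) : ℂ) * yy h P s‖) hc ⟨R + 1, fun x hx => by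
      rw [yy_zero h P x (Or.inr (by linarith)), mul_zero, norm_zero]⟩
  simp only [abs_norm] at h3
  rw [← h3]
  apply eLpNorm_congr_norm_ae
  have h0 : ∀ᵐ ξ : ℂ, ξ ≠ 0 := by
    rw [ae_iff]
    simp
  filter_upwards [h0] with z hz
  rw [hf z hz, norm_norm, norm_mul, Complex.norm_real, Complex.normSq_eq_norm_sq,
    Real.norm_of_nonneg (by positivity)]
  congr 1
  rw [← Real.rpow_natCast ‖z‖ 2, ← Real.rpow_mul (norm_nonneg z), ← Real.rpow_natCast ‖z‖ m]
  congr 1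
  push_cast
  ring

/-- the inequality for `∂̄ ^ n F` with `F = conj z ^ (n + m) h(|z| ^ 2)` -/
theorem plane {δ R : ℝ} (h : DD δ R) (n m : ℕ) (p K : ℝ) (hp : 1 ≤ p)
    (hK : 0 ≤ K)
    (H : ∫ s in Ioi (0 : ℝ), ‖((s ^ ((m : ℝ) / 2) : ℝ) : ℂ) * yy h (WW n m n) s‖ ^ p ≤
      K * ∫ s in Ioi (0 : ℝ), ‖((s ^ ((m : ℝ) / 2) : ℝ) : ℂ) * yy h (WW n m 0) s‖ ^ p)
    (F : 𝓢(ℂ, ℂ)) (hF : ∀ z, F z = z ^ (n + m) * h.1 (Complex.normSq z)) :
    eLpNorm (Tn n (db^[n] (cj F))) (ENNReal.ofReal p) (volume : Measure ℂ)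
      ≤ ENNReal.ofReal (K ^ (1 / p)) * eLpNorm (db^[n] (cj F)) (ENNReal.ofReal p) volume := by
  have hpos : ∀ z : ℂ, z ≠ 0 → 0 < Complex.normSq z := fun z hz => Complex.normSq_pos.2 hz
  have e1 : Tn n (db^[n] (cj F)) = fun z => (dd^[n] (cj F)) z := funext fun z => Tn_db n (cj F) z
  rw [e1]
  rw [norm_form h m (WW n m n) (fun z => (dd^[n] (cj F)) z) p hp ?_,
    norm_form h m (WW n m 0) (db^[n] (cj F)) p hp ?_]
  · rw [← ENNReal.ofReal_mul (Real.rpow_nonneg hK _)]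
    apply ENNReal.ofReal_le_ofReal
    rw [← Real.mul_rpow hK (by positivity)]
    apply Real.rpow_le_rpow
    · positivity
    · have := mul_le_mul_of_nonneg_left H Real.pi_pos.le
      linarith
    · positivity
  · intro z hz
    have hs := hpos z hz
    rw [db_cj_iter, cj_apply]
    have k1 := dd_iter (n := n + m) h.2.1 hF n (by omega) ((starRingEnd ℂ) z)
    have k2 := real_iter (n := n + m) h.2.1 n (by omega) (Complex.normSq z)
    have k3 := deriv_pow h (n + m) n (Complex.normSq z)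
    rw [← WW_zero, k2] at k3
    have hs' : ((Complex.normSq z : ℝ) : ℂ) ≠ 0 := Complex.ofReal_ne_zero.2 hs.ne'
    have e : n + m - n = m := by omega
    rw [e, ← mul_assoc, ← pow_add] at k3
    have k4 := mul_left_cancel₀ (pow_ne_zero _ hs') k3
    rw [k1, e, Complex.normSq_conj, k4, norm_mul, norm_pow, RCLike.norm_conj]
  · intro z hz
    have hs := hpos z hz
    rw [dd_cj_iter, cj_apply]
    have k1 := db_iter (m := n + m) h.2.1 hF n ((starRingEnd ℂ) z)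
    have k3 := deriv_pow h 0 n (Complex.normSq z)
    rw [← WW_last n m] at k3
    simp only [pow_zero, one_mul] at k3
    rw [k1, Complex.normSq_conj, norm_mul, norm_pow, RCLike.norm_conj]
    have k5 : (fun t : ℝ => h.1 t) = h.1 := rfl
    rw [← k3, norm_mul, norm_pow, Complex.norm_real, Real.norm_of_nonneg hs.le,
      Complex.normSq_eq_norm_sq, ← mul_assoc]
    congr 1
    ring

end Pool.Agent.R892.BR
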