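import Pool.Agent.R892.BR.Const

/-! # Powers of the Beurling transform on the angular frequencies `k ≤ n` -/

set_option autoImplicit false

open Set MeasureTheory
open scoped SchwartzMap ENNReal

namespace Pool.Agent.R892.BR

open Pool.Agent.Y282.RB (Tn Cn)

theorem rpow_root (x p : ℝ) (hx : 0 ≤ x) (hp : 2 ≤ p) : (x ^ (p - 2)) ^ (1 / p) = x ^ (1 - 2 / p) := by
  rw [← Real.rpow_mul hx]
  congr 1
  have : p ≠ 0 := by linarith
  field_simp

theorem boundA (n : ℕ) (hn : 1 ≤ n) (k : ℤ) (hk : k ≤ n) (p : ℝ) (hp : 2 ≤ p) (f : 𝓢(ℂ, ℂ))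
    (hf : ∀ a z : ℂ, ‖a‖ = 1 → f (a * z) = a ^ k * f z) :
    eLpNorm (Tn n f) (ENNReal.ofReal p) (volume : Measure ℂ) ≤
      ENNReal.ofReal ((1 + √(n * (n - k))) ^ (1 - 2 / p)) * eLpNorm f (ENNReal.ofReal p) volume := by
  rcases le_or_gt 0 k with h0 | h0
  · obtain ⟨l, rfl⟩ : ∃ l : ℕ, k = l := ⟨k.toNat, (Int.toNat_of_nonneg h0).symm⟩
    have hl : l ≤ n := by exact_mod_cast hk
    have hl' : (l : ℝ) ≤ n := by exact_mod_cast hl
    have h := class_pos n l hn hl p hp ((1 + √(n * (n - l))) ^ (p - 2))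
      (Real.one_le_rpow (by linarith [Real.sqrt_nonneg ((n : ℝ) * (n - l))]) (by linarith)) (fun h1 => by
        have h2 := oneDim_a (n - l) l h1 p hp
        have e : ((n - l : ℕ) : ℝ) * ((n - l : ℕ) + l) = n * (n - l) := by
          rw [Nat.cast_sub hl]
          ring
        rw [e] at h2
        exact h2) f (fun a z ha => by rw [hf a z ha, zpow_natCast])
    rw [rpow_root _ _ (by positivity) hp] at h
    simpa using h
  · obtain ⟨l, rfl⟩ : ∃ l : ℕ, k = -(l : ℤ) := ⟨(-k).toNat, by omega⟩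
    have h := class_neg n l hn p hp ((1 + √(n * (n + l))) ^ (p - 2)) (by positivity)
      (oneDim_a n l hn p hp) f (fun a z ha => by
        rw [hf a z ha, zpow_neg, zpow_natCast, ← inv_pow, Complex.inv_eq_conj ha])
    rw [rpow_root _ _ (by positivity) hp] at h
    simpa using h

theorem boundB (n : ℕ) (hn : 2 ≤ n) (k : ℤ) (hk : k ≤ n) (p : ℝ) (hp : 2 ≤ p) (f : 𝓢(ℂ, ℂ))
    (hf : ∀ a z : ℂ, ‖a‖ = 1 → f (a * z) = a ^ k * f z) :
    eLpNorm (Tn n f) (ENNReal.ofReal p) (volume : Measure ℂ) ≤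
      ENNReal.ofReal ((13 / 2 * n) ^ (1 - 2 / p)) * eLpNorm f (ENNReal.ofReal p) volume := by
  have hn' : (2 : ℝ) ≤ n := by exact_mod_cast hn
  have hp0 : 0 < p := by linarith
  have h2p : 2 / p ≤ 1 := by rw [div_le_one hp0]; exact hp
  rcases le_or_gt 0 k with h0 | h0
  · refine (boundA n (by omega) k hk p hp f hf).trans ?_
    gcongr
    have hk' : (0 : ℝ) ≤ k := by exact_mod_cast h0
    have h1 : √((n : ℝ) * (n - k)) ≤ n := by
      rw [Real.sqrt_le_left (by linarith)]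
      nlinarith
    linarith
  · obtain ⟨l, rfl⟩ : ∃ l : ℕ, k = -(l : ℤ) := ⟨(-k).toNat, by omega⟩
    have h := class_neg n l (by omega) p hp ((13 / 2 * n) ^ (p - 2)) (by positivity)
      (oneDim_b n l hn p hp) f (fun a z ha => by
        rw [hf a z ha, zpow_neg, zpow_natCast, ← inv_pow, Complex.inv_eq_conj ha])
    rw [rpow_root _ _ (by positivity) hp] at h
    exact h

theorem boundC (n : ℕ) (hn : 1 ≤ n) (k : ℤ) (hk : k ≤ n) (p : ℝ) (hp : 2 ≤ p) (f : 𝓢(ℂ, ℂ))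
    (hf : ∀ a z : ℂ, ‖a‖ = 1 → f (a * z) = a ^ k * f z) :
    eLpNorm (Tn n f) (ENNReal.ofReal p) (volume : Measure ℂ) ≤
      ENNReal.ofReal (Cn p n) * eLpNorm f (ENNReal.ofReal p) volume := by
  have hp0 : 0 < p := by linarith
  have h2p : 2 / p ≤ 1 := by rw [div_le_one hp0]; exact hp
  rcases eq_or_lt_of_le hn with h1 | h1
  · subst h1
    have h := Pool.Agent.TH55.PowA.base p hp f
    have e : Cn p 1 = p - 1 := by
      unfold Cn
      rw [Finset.prod_range_one]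
      simp only [Nat.cast_zero, zero_add]
      field_simp
    rw [e]
    have e2 : Tn 1 f = Pool.Agent.TH55.PowA.T Pool.Agent.TH55.PowA.bs f := by
      rw [Pool.Agent.Y282.RB.K.Tn_eq]
      simp only [pow_one]
    rw [e2]
    exact h
  · refine (boundB n h1 k hk p hp f hf).trans ?_
    gcongr
    refine le_trans ?_ (Cn_lower n h1 p hp)
    have hn' : (0 : ℝ) ≤ n := Nat.cast_nonneg n
    apply Real.rpow_le_rpow (by positivity) _ (by linarith)
    linarith

theorem boundD (n : ℕ) (hn : 1 ≤ n) (k : ℤ) (hk : k ≤ n) (p : ℝ) (hp : 2 ≤ p) (f : 𝓢(ℂ, ℂ))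
    (hf : ∀ a z : ℂ, ‖a‖ = 1 → f (a * z) = a ^ k * f z) :
    eLpNorm (Tn n f) (ENNReal.ofReal p) (volume : Measure ℂ) ≤
      ENNReal.ofReal ((n : ℝ) ^ (1 - 2 / p) * (p - 1)) * eLpNorm f (ENNReal.ofReal p) volume := by
  refine (boundC n hn k hk p hp f hf).trans ?_
  gcongr
  exact Pool.Agent.Y282.RB.N.main n p hn hp

end Pool.Agent.R892.BR
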