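import Pool.Agent.R892.BR.Chain

/-! # The chain of Euler operators -/

set_option autoImplicit false

open Set MeasureTheory Polynomial
open scoped ContDiff

namespace Pool.Agent.R892.BR

/-- smooth functions supported in `[δ, R]` -/
def DD (δ R : ℝ) : Submodule ℂ (ℝ → ℂ) where
  carrier := {h | ContDiff ℝ ∞ h ∧ ∀ s, (s < δ ∨ R < s) → h s = 0}
  add_mem' := by
    rintro a b ⟨ha1, ha2⟩ ⟨hb1, hb2⟩
    refine ⟨ha1.add hb1, fun s hs => ?_⟩
    rw [Pi.add_apply, ha2 s hs, hb2 s hs, add_zero]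
  zero_mem' := ⟨contDiff_const, fun _ _ => rfl⟩
  smul_mem' := by
    rintro c a ⟨ha1, ha2⟩
    refine ⟨contDiff_const.smul ha1, fun s hs => ?_⟩
    rw [Pi.smul_apply, ha2 s hs, smul_zero]

theorem DD_diff {δ R : ℝ} (h : DD δ R) : Differentiable ℝ h.1 := h.2.1.differentiable (by simp)

theorem Th_mem {δ R : ℝ} (h : DD δ R) : (fun s : ℝ => (s : ℂ) * deriv h.1 s) ∈ DD δ R := by
  refine ⟨?_, fun s hs => ?_⟩
  · have h1 : ContDiff ℝ ∞ (deriv h.1) := (contDiff_infty_iff_deriv.1 h.2.1).2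
    exact Complex.ofRealCLM.contDiff.mul h1
  · have h2 : deriv h.1 s = 0 := by
      have h3 : h.1 =ᶠ[nhds s] fun _ => 0 := by
        rcases hs with hs | hs
        · filter_upwards [Iio_mem_nhds hs] with x hx
          exact h.2.2 x (Or.inl hx)
        · filter_upwards [Ioi_mem_nhds hs] with x hx
          exact h.2.2 x (Or.inr hx)
      rw [h3.deriv_eq, deriv_const]
    simp only
    rw [h2, mul_zero]

/-- the Euler operator -/
noncomputable def Th (δ R : ℝ) : Module.End ℂ (DD δ R) where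
  toFun h := ⟨fun s : ℝ => (s : ℂ) * deriv h.1 s, Th_mem h⟩
  map_add' a b := by
    apply Subtype.ext
    funext s
    have h1 : deriv (a.1 + b.1) s = deriv a.1 s + deriv b.1 s :=
      deriv_add (DD_diff a s) (DD_diff b s)
    show (s : ℂ) * deriv (a.1 + b.1) s = (s : ℂ) * deriv a.1 s + (s : ℂ) * deriv b.1 s
    rw [h1, mul_add]
  map_smul' c a := by
    apply Subtype.ext
    funext s
    have h1 : deriv (c • a.1) s = c • deriv a.1 s := deriv_const_smul c (DD_diff a s)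
    show (s : ℂ) * deriv (c • a.1) s = c • ((s : ℂ) * deriv a.1 s)
    rw [h1, smul_eq_mul, smul_eq_mul]
    ring

/-- `P (Θ) h` -/
noncomputable def yy {δ R : ℝ} (h : DD δ R) (P : ℂ[X]) : ℝ → ℂ := ((aeval (Th δ R) P) h).1

theorem yy_diff {δ R : ℝ} (h : DD δ R) (P : ℂ[X]) : Differentiable ℝ (yy h P) := DD_diff _

theorem yy_zero {δ R : ℝ} (h : DD δ R) (P : ℂ[X]) (s : ℝ) (hs : s < δ ∨ R < s) : yy h P s = 0 :=
  ((aeval (Th δ R) P) h).2.2 s hs

theorem yy_one {δ R : ℝ} (h : DD δ R) : yy h 1 = h.1 := by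
  unfold yy
  rw [map_one]
  rfl

theorem yy_mul {δ R : ℝ} (h : DD δ R) (P : ℂ[X]) (c : ℂ) (s : ℝ) :
    yy h ((X + C c) * P) s = (s : ℂ) * deriv (yy h P) s + c * yy h P s := by
  unfold yy
  rw [map_mul, map_add, aeval_X, aeval_C]
  rfl

/-- derivatives of `s ^ a h (s)` -/
theorem deriv_pow {δ R : ℝ} (h : DD δ R) (a n : ℕ) (s : ℝ) :
    (s : ℂ) ^ n * iteratedDeriv n (fun t : ℝ => (t : ℂ) ^ a * h.1 t) s =
      (s : ℂ) ^ a * yy h (∏ i ∈ Finset.range n, (X + C ((a : ℂ) - i))) s := by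
  induction n generalizing s with
  | zero => simp [yy_one]
  | succ n ih =>
    set P : ℂ[X] := ∏ i ∈ Finset.range n, (X + C ((a : ℂ) - i)) with hP
    set F : ℝ → ℂ := iteratedDeriv n (fun t : ℝ => (t : ℂ) ^ a * h.1 t) with hF
    have hsm : ContDiff ℝ ∞ (fun t : ℝ => (t : ℂ) ^ a * h.1 t) :=
      (Complex.ofRealCLM.contDiff.pow a).mul h.2.1
    have hFd : HasDerivAt F (iteratedDeriv (n + 1) (fun t : ℝ => (t : ℂ) ^ a * h.1 t) s) s := by
      rw [iteratedDeriv_succ]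
      exact (hsm.differentiable_iteratedDeriv n (by exact_mod_cast ENat.natCast_lt_top n) s).hasDerivAt
    have p1 : ∀ k : ℕ, HasDerivAt (fun t : ℝ => (t : ℂ) ^ k) ((k : ℂ) * (s : ℂ) ^ (k - 1)) s :=
      fun k => (hasDerivAt_pow k (s : ℂ)).comp_ofReal
    have d1 := (p1 n).mul hFd
    have d2 := (p1 a).mul (yy_diff h P s).hasDerivAt
    have e : (fun t : ℝ => (t : ℂ) ^ n) * F = (fun t : ℝ => (t : ℂ) ^ a) * yy h P := by
      funext t
      exact ih t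
    rw [e] at d1
    have d3 := d1.unique d2
    have q : ∀ (k : ℕ), (s : ℂ) * ((k : ℂ) * (s : ℂ) ^ (k - 1)) = k * (s : ℂ) ^ k := by
      intro k
      rcases Nat.eq_zero_or_pos k with hk | hk
      · subst hk; simp
      · obtain ⟨l, rfl⟩ : ∃ l, k = l + 1 := ⟨k - 1, by omega⟩
        rw [Nat.add_sub_cancel, pow_succ]
        ring
    rw [Finset.prod_range_succ, mul_comm P, yy_mul, pow_succ]
    have e2 := ih s
    linear_combination (s : ℂ) * d3 + (-F s) * q n + (yy h P s) * q a - (n : ℂ) * e2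

/-- the factors -/
noncomputable def WW (n m j : ℕ) : ℂ[X] :=
  (∏ i ∈ Finset.range j, (X + C (-(i : ℂ)))) * ∏ i ∈ Finset.Ico j n, (X + C ((m + i + 1 : ℕ) : ℂ))

noncomputable def GG (n m j : ℕ) : ℂ[X] :=
  (∏ i ∈ Finset.range j, (X + C (-(i : ℂ)))) *
    ∏ i ∈ Finset.Ico (j + 1) n, (X + C ((m + i + 1 : ℕ) : ℂ))

theorem WW_eq (n m j : ℕ) (hj : j < n) : WW n m j = (X + C ((m + j + 1 : ℕ) : ℂ)) * GG n m j := by
  unfold WW GG
  rw [Finset.prod_eq_prod_Ico_succ_bot hj]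
  ring

theorem WW_succ (n m j : ℕ) : WW n m (j + 1) = (X + C (-(j : ℂ))) * GG n m j := by
  unfold WW GG
  rw [Finset.prod_range_succ]
  ring

theorem WW_zero (n m : ℕ) : WW n m 0 = ∏ i ∈ Finset.range n, (X + C (((n + m : ℕ) : ℂ) - i)) := by
  unfold WW
  rw [Finset.prod_range_zero, one_mul, ← Finset.range_eq_Ico, ← Finset.prod_range_reflect]
  apply Finset.prod_congr rfl
  intro i hi
  have hi' := Finset.mem_range.1 hi
  have : ((m + (n - 1 - i) + 1 : ℕ) : ℂ) = ((n + m : ℕ) : ℂ) - i := by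
    rw [eq_sub_iff_add_eq]
    norm_cast
    omega
  rw [this]

theorem WW_last (n m : ℕ) : WW n m n = ∏ i ∈ Finset.range n, (X + C (((0 : ℕ) : ℂ) - i)) := by
  unfold WW
  rw [Finset.Ico_self, Finset.prod_empty, mul_one]
  apply Finset.prod_congr rfl
  intro i _
  rw [Nat.cast_zero, zero_sub]

/-- the one-dimensional inequality -/
theorem oneD {δ R : ℝ} (hδ : 0 < δ) (hR : δ ≤ R) (h : DD δ R) (n m : ℕ) (hn : 1 ≤ n)
    (η₀ r : ℝ) (hη₀ : 0 ≤ η₀) (hr : 1 ≤ r) :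
    ∫ s in Ioi (0 : ℝ), ‖((s ^ ((m : ℝ) / 2) : ℝ) : ℂ) * yy h (WW n m n) s‖ ^ (2 * r) ≤
      (1 + η₀ * ((r - 1) / r) * (1 + 1 / (2 * n))) *
      (1 + √(n * (n + 2 * ((m : ℝ) / 2)) / ((1 + η₀ * (2 * ((m : ℝ) / 2) + 1) / (4 * n * (1 + η₀))) /
        (1 + η₀ * (1 + 1 / (2 * n)))))) ^ (2 * r - 2) *
      ∫ s in Ioi (0 : ℝ), ‖((s ^ ((m : ℝ) / 2) : ℝ) : ℂ) * yy h (WW n m 0) s‖ ^ (2 * r) := by
  have hpow : ∀ s : ℝ, 0 < s → HasDerivAt (fun t : ℝ => ((t ^ ((m : ℝ) / 2) : ℝ) : ℂ))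
      (((m : ℝ) / 2 : ℝ) * ((s ^ ((m : ℝ) / 2) : ℝ) : ℂ) / (s : ℂ)) s := by
    intro s hs
    have h1 := (Real.hasDerivAt_rpow_const (x := s) (p := (m : ℝ) / 2) (Or.inl hs.ne')).ofReal_comp
    convert h1 using 1
    rw [Real.rpow_sub_one hs.ne']
    push_cast
    ring
  have hcont : ∀ P : ℂ[X], ContinuousOn (fun s : ℝ => ((s ^ ((m : ℝ) / 2) : ℝ) : ℂ) * yy h P s) (Ioi 0) := by
    intro P s hs
    exact ((hpow s hs).continuousAt.mul (yy_diff h P s).continuousAt).continuousWithinAt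
  refine chain_bound n hn ((m : ℝ) / 2) η₀ r (δ / 2) (R + 1) (by positivity) hη₀ hr (by linarith)
    (by linarith) (fun j s => ((s ^ ((m : ℝ) / 2) : ℝ) : ℂ) * yy h (WW n m j) s)
    (fun j s => ((s ^ ((m : ℝ) / 2) : ℝ) : ℂ) * yy h (GG n m j) s) ?_ ?_ ?_ ?_ ?_ ?_ (hcont _) (hcont _)
  · intro j hj s hs
    have h1 := (hpow s hs).mul (yy_diff h (GG n m j) s).hasDerivAt
    have hs' : (s : ℂ) ≠ 0 := Complex.ofReal_ne_zero.2 hs.ne'
    refine h1.congr_deriv ?_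
    rw [WW_eq n m j hj, yy_mul]
    field_simp
    push_cast
    ring
  · intro j hj s hs
    rw [WW_eq n m j hj, WW_succ, yy_mul, yy_mul]
    push_cast
    ring
  · intro j _
    rw [yy_zero h _ _ (Or.inl (by linarith)), mul_zero]
  · intro j _
    rw [yy_zero h _ _ (Or.inr (by linarith)), mul_zero]
  · intro s _ hs
    rw [yy_zero h _ _ (hs.imp (fun h => by linarith) (fun h => by linarith)), mul_zero]
  · intro s _ hs
    rw [yy_zero h _ _ (hs.imp (fun h => by linarith) (fun h => by linarith)), mul_zero]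

end Pool.Agent.R892.BR
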