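import Pool.Agent.R892.BR.Alg

/-! # Iterated primitives and cut-offs -/

set_option autoImplicit false

open Set MeasureTheory Filter Topology
open scoped ContDiff

namespace Pool.Agent.R892.BR

theorem exists_prim (v : ℝ → ℂ) (hv : ContDiff ℝ ∞ v) (δ : ℝ) (hδ : 0 < δ)
    (h0 : ∀ s, s < δ → v s = 0) :
    ∃ u : ℝ → ℂ, ContDiff ℝ ∞ u ∧ deriv u = v ∧ (∀ s, s < δ → u s = 0) ∧
      ∀ s, u s = ∫ t in (0 : ℝ)..s, v t := by
  have hd : ∀ s, HasDerivAt (fun s => ∫ t in (0 : ℝ)..s, v t) (v s) s := fun s =>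
    intervalIntegral.integral_hasDerivAt_right (hv.continuous.intervalIntegrable _ _)
      hv.continuous.stronglyMeasurable.stronglyMeasurableAtFilter hv.continuous.continuousAt
  have hdd : deriv (fun s => ∫ t in (0 : ℝ)..s, v t) = v := funext fun s => (hd s).deriv
  refine ⟨fun s => ∫ t in (0 : ℝ)..s, v t, ?_, hdd, fun s hs => ?_, fun _ => rfl⟩
  · rw [contDiff_infty_iff_deriv]
    exact ⟨fun s => (hd s).differentiableAt, by rw [hdd]; exact hv⟩
  · show ∫ t in (0 : ℝ)..s, v t = 0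
    rw [intervalIntegral.integral_congr (g := fun _ => (0 : ℂ))]
    · simp
    · intro t ht
      apply h0
      rcases le_total 0 s with h | h
      · rw [uIcc_of_le h] at ht
        linarith [ht.2]
      · rw [uIcc_of_ge h] at ht
        linarith [ht.2]

theorem exists_iter (v : ℝ → ℂ) (hv : ContDiff ℝ ∞ v) (δ R : ℝ) (hδ : 0 < δ) (hR : δ ≤ R)
    (h0 : ∀ s, s < δ → v s = 0) (h1 : ∀ s, R < s → v s = 0) :
    ∃ (U : ℕ → ℝ → ℂ) (B : ℝ), 0 ≤ B ∧ U 0 = v ∧ (∀ i, ContDiff ℝ ∞ (U i)) ∧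
      (∀ i, deriv (U (i + 1)) = U i) ∧ (∀ i s, s < δ → U i s = 0) ∧
      ∀ i s, 0 ≤ s → ‖U (i + 1) s‖ ≤ B * s ^ i := by
  choose! P hP1 hP2 hP3 hP4 using fun (v : ℝ → ℂ) (h : ContDiff ℝ ∞ v ∧ ∀ s, s < δ → v s = 0) =>
    exists_prim v h.1 δ hδ h.2
  set U : ℕ → ℝ → ℂ := fun i => P^[i] v with hU
  have hU' : ∀ i, U (i + 1) = P (U i) := fun i => Function.iterate_succ_apply' P i v
  have hgood : ∀ i, ContDiff ℝ ∞ (U i) ∧ ∀ s, s < δ → U i s = 0 := by
    intro i
    induction i with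
    | zero => exact ⟨hv, h0⟩
    | succ i ih =>
      rw [hU' i]
      exact ⟨hP1 _ ih, hP3 _ ih⟩
  obtain ⟨b, hb⟩ : ∃ b, ∀ s ∈ Icc (0 : ℝ) R, ‖v s‖ ≤ b :=
    (isCompact_Icc (a := (0 : ℝ)) (b := R)).exists_bound_of_continuousOn hv.continuous.continuousOn
  have hb0 : 0 ≤ b := (norm_nonneg _).trans (hb R ⟨by linarith, le_rfl⟩)
  have hR0 : 0 ≤ R := by linarith
  refine ⟨U, b * R, by positivity, rfl, fun i => (hgood i).1, fun i => ?_, fun i => (hgood i).2, ?_⟩
  · rw [hU' i]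
    exact hP2 _ (hgood i)
  · intro i
    induction i with
    | zero =>
      intro s hs
      rw [hU' 0, hP4 _ (hgood 0), pow_zero, mul_one]
      have hU0 : U 0 = v := rfl
      rw [hU0]
      rcases le_total s R with h | h
      · have k := intervalIntegral.norm_integral_le_of_norm_le_const (a := 0) (b := s) (f := v)
          (C := b) (fun t ht => hb t (by
            rw [uIoc_of_le hs] at ht
            exact ⟨ht.1.le, by linarith [ht.2]⟩))
        rw [sub_zero, abs_of_nonneg hs] at k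
        exact k.trans (mul_le_mul_of_nonneg_left h hb0)
      · have k := intervalIntegral.norm_integral_le_of_norm_le_const (a := 0) (b := R) (f := v)
          (C := b) (fun t ht => hb t (by
            rw [uIoc_of_le hR0] at ht
            exact ⟨ht.1.le, ht.2⟩))
        rw [sub_zero, abs_of_nonneg hR0] at k
        have k2 : ∫ t in R..s, v t = 0 := by
          rw [intervalIntegral.integral_of_le h]
          apply setIntegral_eq_zero_of_forall_eq_zero
          intro t ht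
          exact h1 t ht.1
        rw [← intervalIntegral.integral_add_adjacent_intervals
          (hv.continuous.intervalIntegrable 0 R) (hv.continuous.intervalIntegrable R s), k2, add_zero]
        exact k
    | succ i ih =>
      intro s hs
      rw [hU' (i + 1), hP4 _ (hgood (i + 1))]
      have k := intervalIntegral.norm_integral_le_of_norm_le_const (a := 0) (b := s) (f := U (i + 1))
          (C := b * R * s ^ i) (fun t ht => by
            rw [uIoc_of_le hs] at ht
            refine (ih t ht.1.le).trans ?_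
            have := ht.1.le
            have := ht.2
            gcongr)
      rw [sub_zero, abs_of_nonneg hs] at k
      refine k.trans (le_of_eq ?_)
      rw [pow_succ]
      ring

theorem iter_U (U : ℕ → ℝ → ℂ) (hd : ∀ i, deriv (U (i + 1)) = U i) (n i : ℕ) (hi : i ≤ n) :
    iteratedDeriv i (U n) = U (n - i) := by
  induction i with
  | zero => simp
  | succ i ih =>
    rw [iteratedDeriv_succ, ih (by omega)]
    have e : n - i = (n - (i + 1)) + 1 := by omega
    rw [e, hd]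

/-- the cut-off function -/
noncomputable def chi (x : ℝ) : ℂ := (Real.smoothTransition (2 - x) : ℂ)

theorem chi_smooth : ContDiff ℝ ∞ chi :=
  Complex.ofRealCLM.contDiff.comp (Real.smoothTransition.contDiff.comp (contDiff_const.sub contDiff_id))

theorem chi_one (x : ℝ) (hx : x ≤ 1) : chi x = 1 := by
  unfold chi
  rw [Real.smoothTransition.one_of_one_le (by linarith)]
  simp

theorem chi_zero (x : ℝ) (hx : 2 ≤ x) : chi x = 0 := by
  unfold chi
  rw [Real.smoothTransition.zero_of_nonpos (by linarith)]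
  simp

theorem chi_iter_zero (j : ℕ) (x : ℝ) (hx : x < 1 ∨ 2 < x) : iteratedDeriv (j + 1) chi x = 0 := by
  induction j generalizing x with
  | zero =>
    rw [zero_add, iteratedDeriv_one]
    rcases hx with hx | hx
    · have : chi =ᶠ[𝓝 x] fun _ => 1 := by
        filter_upwards [Iio_mem_nhds hx] with y hy
        exact chi_one y (le_of_lt hy)
      rw [this.deriv_eq, deriv_const]
    · have : chi =ᶠ[𝓝 x] fun _ => 0 := by
        filter_upwards [Ioi_mem_nhds hx] with y hy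
        exact chi_zero y (le_of_lt hy)
      rw [this.deriv_eq, deriv_const]
  | succ j ih =>
    rw [iteratedDeriv_succ]
    have : iteratedDeriv (j + 1) chi =ᶠ[𝓝 x] fun _ => 0 := by
      rcases hx with hx | hx
      · filter_upwards [Iio_mem_nhds hx] with y hy
        exact ih y (Or.inl hy)
      · filter_upwards [Ioi_mem_nhds hx] with y hy
        exact ih y (Or.inr hy)
    rw [this.deriv_eq, deriv_const]

theorem chi_iter_bound (n : ℕ) : ∃ M : ℝ, 0 ≤ M ∧ ∀ j, j < n → ∀ x, ‖iteratedDeriv (j + 1) chi x‖ ≤ M := by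
  have h1 : ∀ j : ℕ, ∃ M : ℝ, 0 ≤ M ∧ ∀ x, ‖iteratedDeriv (j + 1) chi x‖ ≤ M := by
    intro j
    have hc : Continuous (iteratedDeriv (j + 1) chi) :=
      chi_smooth.continuous_iteratedDeriv (j + 1) (by exact_mod_cast (ENat.natCast_lt_top (j + 1)).le)
    obtain ⟨M, hM⟩ := (isCompact_Icc (a := (1 : ℝ)) (b := 2)).exists_bound_of_continuousOn hc.continuousOn
    have hM0 : 0 ≤ M := (norm_nonneg _).trans (hM 1 (by norm_num))
    refine ⟨M, hM0, fun x => ?_⟩
    by_cases hx : x ∈ Icc (1 : ℝ) 2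
    · exact hM x hx
    · rw [chi_iter_zero j x]
      · simpa using hM0
      · by_contra hcon
        push Not at hcon
        exact hx ⟨hcon.1, hcon.2⟩
  choose M hM0 hM using h1
  refine ⟨∑ j ∈ Finset.range n, M j, Finset.sum_nonneg fun j _ => hM0 j, fun j hj x => ?_⟩
  exact (hM j x).trans (Finset.single_le_sum (fun i _ => hM0 i) (Finset.mem_range.2 hj))

theorem chi_scale (ρ : ℝ) (j : ℕ) (s : ℝ) :
    iteratedDeriv j (fun x : ℝ => chi (ρ⁻¹ * x)) s = ((ρ⁻¹ : ℝ) : ℂ) ^ j * iteratedDeriv j chi (ρ⁻¹ * s) := by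
  have h := iteratedDeriv_comp_const_smul (n := j) (f := chi)
    (chi_smooth.of_le (by exact_mod_cast (ENat.natCast_lt_top j).le)) ρ⁻¹
  have h2 := congrFun h s
  simp only [smul_eq_mul, Complex.real_smul] at h2
  rw [h2]
  push_cast
  rfl

/-- the error of the cut-off -/
theorem cut_error (v : ℝ → ℂ) (U : ℕ → ℝ → ℂ) (B R : ℝ) (hB : 0 ≤ B) (hU0 : U 0 = v)
    (hUs : ∀ i, ContDiff ℝ ∞ (U i)) (hUd : ∀ i, deriv (U (i + 1)) = U i)
    (h1 : ∀ s, R < s → v s = 0) (hUB : ∀ i s, 0 ≤ s → ‖U (i + 1) s‖ ≤ B * s ^ i) (n : ℕ) :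
    ∃ C₀ : ℝ, 0 ≤ C₀ ∧ ∀ ρ : ℝ, R < ρ → 1 ≤ ρ → ∀ s : ℝ, 0 ≤ s →
      ‖iteratedDeriv n (fun x => U n x * chi (ρ⁻¹ * x)) s - v s‖ ≤ C₀ / ρ ∧
      ((s < ρ ∨ 2 * ρ < s) → iteratedDeriv n (fun x => U n x * chi (ρ⁻¹ * x)) s - v s = 0) := by
  obtain ⟨M, hM0, hM⟩ := chi_iter_bound n
  refine ⟨n * (2 ^ n * (B * 2 ^ n * M)), by positivity, fun ρ hρR hρ1 s hs => ?_⟩
  have hρ0 : 0 < ρ := by linarith
  have hsm : ContDiff ℝ ∞ (fun x : ℝ => chi (ρ⁻¹ * x)) := chi_smooth.comp (contDiff_const.mul contDiff_id)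
  have hL := iteratedDeriv_mul (n := n) (x := s) (f := U n) (g := fun x : ℝ => chi (ρ⁻¹ * x))
    (((hUs n).of_le (by exact_mod_cast (ENat.natCast_lt_top n).le)).contDiffAt)
    ((hsm.of_le (by exact_mod_cast (ENat.natCast_lt_top n).le)).contDiffAt)
  have e0 : iteratedDeriv n (fun x => U n x * chi (ρ⁻¹ * x)) s =
      iteratedDeriv n (U n * fun x : ℝ => chi (ρ⁻¹ * x)) s := rfl
  have elast : v s * chi (ρ⁻¹ * s) = v s := by
    rcases lt_or_ge s ρ with h | h
    · rw [chi_one _ ?_, mul_one]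
      rw [inv_mul_le_iff₀ hρ0]
      linarith
    · rw [h1 s (by linarith), zero_mul]
  have e1 : iteratedDeriv n (fun x => U n x * chi (ρ⁻¹ * x)) s - v s =
      ∑ i ∈ Finset.range n, (n.choose i : ℂ) * U (n - i) s *
        (((ρ⁻¹ : ℝ) : ℂ) ^ (n - i) * iteratedDeriv (n - i) chi (ρ⁻¹ * s)) := by
    rw [e0, hL, Finset.sum_range_succ, Nat.choose_self, Nat.sub_self, Nat.cast_one, one_mul,
      iteratedDeriv_zero, iter_U U hUd n n le_rfl, Nat.sub_self, hU0, elast, add_sub_cancel_right]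
    apply Finset.sum_congr rfl
    intro i hi
    rw [iter_U U hUd n i (Finset.mem_range.1 hi).le, chi_scale]
  have hz : (s < ρ ∨ 2 * ρ < s) → iteratedDeriv n (fun x => U n x * chi (ρ⁻¹ * x)) s - v s = 0 := by
    intro hs'
    rw [e1]
    apply Finset.sum_eq_zero
    intro i hi
    have hi' := Finset.mem_range.1 hi
    obtain ⟨l, hl⟩ : ∃ l, n - i = l + 1 := ⟨n - i - 1, by omega⟩
    rw [hl, chi_iter_zero l (ρ⁻¹ * s) ?_]
    · ring
    · rcases hs' with h | h
      · left
        rw [inv_mul_lt_iff₀ hρ0]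
        linarith
      · right
        rw [lt_inv_mul_iff₀ hρ0]
        linarith
  refine ⟨?_, hz⟩
  by_cases hs' : s < ρ ∨ 2 * ρ < s
  · rw [hz hs', norm_zero]
    positivity
  · push Not at hs'
    rw [e1]
    refine (norm_sum_le _ _).trans ?_
    have hterm : ∀ i ∈ Finset.range n, ‖(n.choose i : ℂ) * U (n - i) s *
        (((ρ⁻¹ : ℝ) : ℂ) ^ (n - i) * iteratedDeriv (n - i) chi (ρ⁻¹ * s))‖ ≤
        2 ^ n * (B * 2 ^ n * M) / ρ := by
      intro i hi
      have hi' := Finset.mem_range.1 hi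
      obtain ⟨l, hl⟩ : ∃ l, n - i = l + 1 := ⟨n - i - 1, by omega⟩
      rw [hl, norm_mul, norm_mul, norm_mul, norm_pow, Complex.norm_real, Complex.norm_natCast,
        Real.norm_of_nonneg (inv_nonneg.2 hρ0.le)]
      have a1 : ((n.choose i : ℕ) : ℝ) ≤ 2 ^ n := by exact_mod_cast Nat.choose_le_two_pow n i
      have a2 : ‖U (l + 1) s‖ ≤ B * (2 ^ n * ρ ^ l) := by
        refine (hUB l s hs).trans ?_
        apply mul_le_mul_of_nonneg_left _ hB
        calc s ^ l ≤ (2 * ρ) ^ l := pow_le_pow_left₀ hs hs'.2 l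
          _ = 2 ^ l * ρ ^ l := mul_pow _ _ _
          _ ≤ 2 ^ n * ρ ^ l := by
            apply mul_le_mul_of_nonneg_right _ (by positivity)
            exact pow_le_pow_right₀ (by norm_num) (by omega)
      have a3 : ‖iteratedDeriv (l + 1) chi (ρ⁻¹ * s)‖ ≤ M := hM l (by omega) _
      calc ((n.choose i : ℕ) : ℝ) * ‖U (l + 1) s‖ * (ρ⁻¹ ^ (l + 1) *
            ‖iteratedDeriv (l + 1) chi (ρ⁻¹ * s)‖)
          ≤ 2 ^ n * (B * (2 ^ n * ρ ^ l)) * (ρ⁻¹ ^ (l + 1) * M) := by
            gcongr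
        _ = 2 ^ n * (B * 2 ^ n * M) / ρ := by
            rw [pow_succ, inv_pow]
            field_simp
    refine (Finset.sum_le_sum hterm).trans (le_of_eq ?_)
    rw [Finset.sum_const, Finset.card_range, nsmul_eq_mul]
    ring

end Pool.Agent.R892.BR
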