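import Pool.Agent.R892.BR.Plane
import Pool.Agent.R892.BR.Cut
import Pool.Agent.Y282.RB.K

/-! # Passage to all functions of angular type -/

set_option autoImplicit false

open Set MeasureTheory Filter Topology Polynomial
open scoped SchwartzMap ContDiff ENNReal

namespace Pool.Agent.R892.BR

open Pool.Agent.Y282.RB (Tn)
open Pool.Agent.Y282.RB.A2
open Pool.Agent.Y282.RB.K (adm_sy Tn_eq Tn_add exists_cut tendsto_trunc)

/-- the set of functions satisfying the inequality is closed -/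
theorem closure_bound (n : ℕ) (hn : 1 ≤ n) (p : ℝ) (hp : 2 ≤ p) (C : ℝ) (f : 𝓢(ℂ, ℂ))
    (g : ℕ → 𝓢(ℂ, ℂ))
    (hg : ∀ k, eLpNorm (Tn n (g k)) (ENNReal.ofReal p) (volume : Measure ℂ) ≤
      ENNReal.ofReal C * eLpNorm (g k) (ENNReal.ofReal p) volume)
    (hlim : Tendsto (fun k => eLpNorm (f - g k : 𝓢(ℂ, ℂ)) (ENNReal.ofReal p) (volume : Measure ℂ))
      atTop (𝓝 0)) :
    eLpNorm (Tn n f) (ENNReal.ofReal p) (volume : Measure ℂ) ≤
      ENNReal.ofReal C * eLpNorm f (ENNReal.ofReal p) volume := by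
  set K : ℝ≥0∞ := ENNReal.ofReal (Pool.Agent.TH55.PowA.Cn n * (p - 1)) with hK
  have hP1 : (1 : ℝ≥0∞) ≤ ENNReal.ofReal p := by
    rw [← ENNReal.ofReal_one]
    exact ENNReal.ofReal_le_ofReal (by linarith)
  have hbound : ∀ k, eLpNorm (Tn n f) (ENNReal.ofReal p) (volume : Measure ℂ) ≤
      K * eLpNorm (f - g k : 𝓢(ℂ, ℂ)) (ENNReal.ofReal p) (volume : Measure ℂ) +
        ENNReal.ofReal C * (eLpNorm f (ENNReal.ofReal p) (volume : Measure ℂ) +
          eLpNorm (f - g k : 𝓢(ℂ, ℂ)) (ENNReal.ofReal p) (volume : Measure ℂ)) := by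
    intro k
    have e1 : Tn n f = fun z => Tn n (f - g k : 𝓢(ℂ, ℂ)) z + Tn n (g k) z := by
      rw [← Tn_add]
      congr 2
      rw [sub_add_cancel]
    have m1 : AEStronglyMeasurable (Tn n (f - g k : 𝓢(ℂ, ℂ))) (volume : Measure ℂ) := by
      rw [Tn_eq]
      exact (Pool.Agent.TH55.PowA.T_cont (adm_sy n) _).aestronglyMeasurable
    have m2 : AEStronglyMeasurable (Tn n (g k)) (volume : Measure ℂ) := by
      rw [Tn_eq]
      exact (Pool.Agent.TH55.PowA.T_cont (adm_sy n) _).aestronglyMeasurable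
    rw [e1]
    refine (eLpNorm_add_le m1 m2 hP1).trans (add_le_add ?_ ?_)
    · rw [Tn_eq]
      exact Pool.Agent.TH55.PowA.main p hp n hn (f - g k)
    · refine (hg k).trans ?_
      gcongr
      have e2 : (⇑(g k) : ℂ → ℂ) = ⇑f - ⇑(f - g k : 𝓢(ℂ, ℂ)) := by
        funext z
        simp
      rw [e2]
      exact eLpNorm_sub_le f.continuous.aestronglyMeasurable
        (f - g k : 𝓢(ℂ, ℂ)).continuous.aestronglyMeasurable hP1
  have hl : Tendsto (fun k => K * eLpNorm (f - g k : 𝓢(ℂ, ℂ)) (ENNReal.ofReal p) (volume : Measure ℂ) +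
        ENNReal.ofReal C * (eLpNorm f (ENNReal.ofReal p) (volume : Measure ℂ) +
          eLpNorm (f - g k : 𝓢(ℂ, ℂ)) (ENNReal.ofReal p) (volume : Measure ℂ))) atTop
      (𝓝 (K * 0 + ENNReal.ofReal C * (eLpNorm f (ENNReal.ofReal p) (volume : Measure ℂ) + 0))) := by
    refine Tendsto.add ?_ ?_
    · exact ENNReal.Tendsto.const_mul hlim (Or.inr ENNReal.ofReal_ne_top)
    · exact ENNReal.Tendsto.const_mul (tendsto_const_nhds.add hlim) (Or.inr ENNReal.ofReal_ne_top)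
  rw [mul_zero, zero_add, add_zero] at hl
  exact ge_of_tendsto' hl hbound

/-- the one-dimensional inequality, as a hypothesis -/
def OneDim (n m : ℕ) (p K : ℝ) : Prop := ∀ δ R : ℝ, 0 < δ → δ ≤ R → ∀ h : DD δ R,
  ∫ s in Ioi (0 : ℝ), ‖((s ^ ((m : ℝ) / 2) : ℝ) : ℂ) * yy h (WW n m n) s‖ ^ p ≤
      K * ∫ s in Ioi (0 : ℝ), ‖((s ^ ((m : ℝ) / 2) : ℝ) : ℂ) * yy h (WW n m 0) s‖ ^ p

theorem small_norm (p c ρ : ℝ) (hp : 2 ≤ p) (hc : 0 ≤ c) (hρ : 1 ≤ ρ) (g : 𝓢(ℂ, ℂ))
    (h1 : ∀ z : ℂ, z ≠ 0 → ‖g z‖ ≤ c / ρ)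
    (h2 : ∀ z : ℂ, z ≠ 0 → 2 * ρ < Complex.normSq z → g z = 0) :
    eLpNorm g (ENNReal.ofReal p) (volume : Measure ℂ) ≤ ENNReal.ofReal (c * √(2 * Real.pi) / √ρ) := by
  have hp0 : 0 < p := by linarith
  have hρ0 : 0 < ρ := by linarith
  have hP0 : ENNReal.ofReal p ≠ 0 := by
    rw [ne_eq, ENNReal.ofReal_eq_zero, not_le]
    exact hp0
  have h3 : eLpNorm g (ENNReal.ofReal p) (volume : Measure ℂ) ≤
      eLpNorm ((Metric.closedBall (0 : ℂ) (√(2 * ρ))).indicator fun _ => (c / ρ : ℝ))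
        (ENNReal.ofReal p) (volume : Measure ℂ) := by
    apply eLpNorm_mono_ae
    have h0 : ∀ᵐ ξ : ℂ, ξ ≠ 0 := by
      rw [ae_iff]
      simp
    filter_upwards [h0] with z hz
    by_cases hz2 : z ∈ Metric.closedBall (0 : ℂ) (√(2 * ρ))
    · rw [indicator_of_mem hz2, Real.norm_of_nonneg (by positivity)]
      exact h1 z hz
    · rw [indicator_of_notMem hz2, norm_zero, h2 z hz, norm_zero]
      rw [mem_closedBall_zero_iff, not_le] at hz2
      rw [Complex.normSq_eq_norm_sq]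
      have := Real.sq_sqrt (show 0 ≤ 2 * ρ by linarith)
      have h5 := Real.sqrt_nonneg (2 * ρ)
      nlinarith
  refine h3.trans ?_
  rw [eLpNorm_indicator_const Metric.isClosed_closedBall.measurableSet hP0 ENNReal.ofReal_ne_top,
    ENNReal.toReal_ofReal hp0.le, Complex.volume_closedBall]
  have e1 : ENNReal.ofReal (√(2 * ρ)) ^ 2 * (NNReal.pi : ℝ≥0∞) = ENNReal.ofReal (2 * Real.pi * ρ) := by
    rw [← ENNReal.ofReal_pow (Real.sqrt_nonneg _), Real.sq_sqrt (by linarith),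
      ← ENNReal.ofReal_coe_nnreal, NNReal.coe_real_pi, ← ENNReal.ofReal_mul (by linarith)]
    congr 1
    ring
  rw [e1, Real.enorm_of_nonneg (by positivity), ENNReal.ofReal_rpow_of_nonneg (by positivity) (by positivity),
    ← ENNReal.ofReal_mul (by positivity)]
  apply ENNReal.ofReal_le_ofReal
  have h6 : (2 * Real.pi * ρ) ^ (1 / p) ≤ √(2 * Real.pi * ρ) := by
    rw [Real.sqrt_eq_rpow]
    apply Real.rpow_le_rpow_of_exponent_le
    · nlinarith [Real.pi_gt_three]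
    · apply one_div_le_one_div_of_le <;> linarith
  have h7 : √(2 * Real.pi * ρ) = √(2 * Real.pi) * √ρ := Real.sqrt_mul (by positivity) ρ
  have h8 : √ρ * √ρ = ρ := Real.mul_self_sqrt hρ0.le
  have h9 : 0 < √ρ := Real.sqrt_pos.2 hρ0
  calc c / ρ * (2 * Real.pi * ρ) ^ (1 / p) ≤ c / ρ * (√(2 * Real.pi) * √ρ) := by
        rw [← h7]
        gcongr
    _ = c * √(2 * Real.pi) / √ρ := by
        rw [div_mul_eq_mul_div, div_eq_div_iff hρ0.ne' h9.ne']
        nth_rewrite 3 [← h8]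
        ring

/-- the functions `conj z ^ m ψ(|z| ^ 2)` -/
theorem stepA (n m : ℕ) (hn : 1 ≤ n) (p : ℝ) (hp : 2 ≤ p) (K : ℝ) (hK : 0 ≤ K)
    (H : OneDim n m p K) (δ R : ℝ) (hδ : 0 < δ) (hR : δ ≤ R) (ψ : DD δ R) (f : 𝓢(ℂ, ℂ))
    (hf : ∀ z, f z = ((starRingEnd ℂ) z) ^ m * ψ.1 (Complex.normSq z)) :
    eLpNorm (Tn n f) (ENNReal.ofReal p) (volume : Measure ℂ) ≤
      ENNReal.ofReal (K ^ (1 / p)) * eLpNorm f (ENNReal.ofReal p) volume := by
  set v : ℝ → ℂ := fun s => (s : ℂ) ^ m * ψ.1 s with hv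
  have hvs : ContDiff ℝ ∞ v := (Complex.ofRealCLM.contDiff.pow m).mul ψ.2.1
  have hv1 : ∀ s, s < δ → v s = 0 := fun s hs => by
    simp only [hv]
    rw [ψ.2.2 s (Or.inl hs), mul_zero]
  have hv2 : ∀ s, R < s → v s = 0 := fun s hs => by
    simp only [hv]
    rw [ψ.2.2 s (Or.inr hs), mul_zero]
  obtain ⟨U, B, hB, hU0, hUs, hUd, hUz, hUB⟩ := exists_iter v hvs δ R hδ hR hv1 hv2
  obtain ⟨C₀, hC₀, hcut⟩ := cut_error v U B R hB hU0 hUs hUd hv2 hUB n
  set h₀ : ℝ → ℂ := fun s => U n s * ((s : ℂ) ^ (n + m))⁻¹ with hh₀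
  have hh₀s : ContDiff ℝ ∞ h₀ := by
    rw [contDiff_iff_contDiffAt]
    intro x
    rcases lt_or_ge x δ with hx | hx
    · refine (contDiffAt_const (c := (0 : ℂ))).congr_of_eventuallyEq ?_
      filter_upwards [Iio_mem_nhds hx] with y hy
      simp only [hh₀]
      rw [hUz n y hy, zero_mul]
    · have hx0 : x ≠ 0 := by linarith
      refine ((hUs n).contDiffAt).mul (ContDiffAt.inv ?_ (pow_ne_zero _ (Complex.ofReal_ne_zero.2 hx0)))
      exact (Complex.ofRealCLM.contDiff.pow (n + m)).contDiffAt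
  have hρ1 : ∀ k : ℕ, 1 ≤ R + 1 + k := fun k => by
    have : (0 : ℝ) ≤ k := Nat.cast_nonneg k
    linarith
  have hρR : ∀ k : ℕ, R < R + 1 + k := fun k => by
    have : (0 : ℝ) ≤ k := Nat.cast_nonneg k
    linarith
  have hmem : ∀ ρ : ℝ, 0 < ρ → (fun x : ℝ => h₀ x * chi (ρ⁻¹ * x)) ∈ DD δ (2 * ρ) := by
    intro ρ hρ
    refine ⟨hh₀s.mul (chi_smooth.comp (contDiff_const.mul contDiff_id)), fun s hs => ?_⟩
    rcases hs with hs | hs
    · simp only [hh₀]
      rw [hUz n s hs, zero_mul, zero_mul]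
    · simp only
      rw [chi_zero, mul_zero]
      rw [le_inv_mul_iff₀ hρ]
      linarith
  have hfun : ∀ ρ : ℝ, (fun t : ℝ => (t : ℂ) ^ (n + m) * (h₀ t * chi (ρ⁻¹ * t))) =
      fun x => U n x * chi (ρ⁻¹ * x) := by
    intro ρ
    funext t
    by_cases ht : t = 0
    · subst ht
      simp only [hh₀]
      rw [hUz n 0 hδ]
      simp
    · have : (t : ℂ) ^ (n + m) ≠ 0 := pow_ne_zero _ (Complex.ofReal_ne_zero.2 ht)
      simp only [hh₀]
      field_simp
  choose F hF using fun k : ℕ => exists_schwartz (n + m)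
    (fun x : ℝ => h₀ x * chi ((R + 1 + k)⁻¹ * x)) (hmem _ (by linarith [hρ1 k])).1 (2 * (R + 1 + k))
    (fun x hx => by
      have := hρ1 k
      rw [chi_zero, mul_zero]
      rw [le_inv_mul_iff₀ (by linarith)]
      linarith)
  refine closure_bound n hn p hp (K ^ (1 / p)) f (fun k => db^[n] (cj (F k))) (fun k => ?_) ?_
  · have hρ0 : 0 < R + 1 + (k : ℝ) := by linarith [hρ1 k]
    exact plane (⟨_, hmem (R + 1 + k) hρ0⟩ : DD δ (2 * (R + 1 + k))) n m p K (by linarith) hK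
      (H δ (2 * (R + 1 + k)) hδ (by linarith [hρR k]) _) (F k) (hF k)
  · have hsmall : ∀ k : ℕ, eLpNorm (f - db^[n] (cj (F k)) : 𝓢(ℂ, ℂ)) (ENNReal.ofReal p)
        (volume : Measure ℂ) ≤ ENNReal.ofReal (C₀ * √(2 * Real.pi) / √(R + 1 + k)) := by
      intro k
      set ρ : ℝ := R + 1 + k with hρ
      have hρ0 : 0 < ρ := by linarith [hρ1 k]
      have hρ1' : 1 ≤ ρ := hρ1 k
      have key : ∀ z : ℂ, z ≠ 0 → ∃ e : ℂ,
          ((Complex.normSq z : ℝ) : ℂ) ^ m * (f - db^[n] (cj (F k)) : 𝓢(ℂ, ℂ)) z =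
            -(((starRingEnd ℂ) z) ^ m * e) ∧ ‖e‖ ≤ C₀ / ρ ∧
            ((Complex.normSq z < ρ ∨ 2 * ρ < Complex.normSq z) → e = 0) := by
        intro z hz
        have hs := Complex.normSq_pos.2 hz
        obtain ⟨c1, c2⟩ := hcut ρ (hρR k) hρ1' (Complex.normSq z) hs.le
        refine ⟨_, ?_, c1, c2⟩
        have k1 := dd_iter (n := n + m) (hmem ρ hρ0).1 (hF k) n (by omega) ((starRingEnd ℂ) z)
        have k2 := real_iter (n := n + m) (hmem ρ hρ0).1 n (by omega) (Complex.normSq z)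
        have e : n + m - n = m := by omega
        rw [hfun ρ, e] at k2
        rw [e, Complex.normSq_conj] at k1
        have k3 : (f - db^[n] (cj (F k)) : 𝓢(ℂ, ℂ)) z = f z - (db^[n] (cj (F k))) z := rfl
        rw [k2, k3, hf z, db_cj_iter, cj_apply, k1]
        simp only [hv]
        ring
      refine small_norm p C₀ ρ hp hC₀ hρ1' _ (fun z hz => ?_) (fun z hz hz2 => ?_)
      · obtain ⟨e, he1, he2, he3⟩ := key z hz
        have hs := Complex.normSq_pos.2 hz
        have hn1 : (Complex.normSq z) ^ m * ‖(f - db^[n] (cj (F k)) : 𝓢(ℂ, ℂ)) z‖ = ‖z‖ ^ m * ‖e‖ := by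
          have := congrArg norm he1
          rw [norm_mul, norm_neg, norm_mul, norm_pow, norm_pow, RCLike.norm_conj, Complex.norm_real,
            Real.norm_of_nonneg hs.le] at this
          exact this
        rcases lt_or_ge (Complex.normSq z) ρ with h | h
        · rw [he3 (Or.inl h), norm_zero, mul_zero] at hn1
          have : ‖(f - db^[n] (cj (F k)) : 𝓢(ℂ, ℂ)) z‖ = 0 := by
            rcases mul_eq_zero.1 hn1 with h' | h'
            · exact absurd h' (pow_ne_zero _ hs.ne')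
            · exact h'
          rw [this]
          positivity
        · have hz1 : 1 ≤ ‖z‖ := by
            rw [Complex.normSq_eq_norm_sq] at h
            by_contra hcon
            push Not at hcon
            nlinarith [norm_nonneg z]
          rw [Complex.normSq_eq_norm_sq, ← pow_mul, mul_comm 2 m, pow_mul, pow_two (‖z‖ ^ m), mul_assoc] at hn1
          have hz0 : 0 < ‖z‖ ^ m := by positivity
          have hn2 := mul_left_cancel₀ hz0.ne' hn1
          have hz3 : 1 ≤ ‖z‖ ^ m := one_le_pow₀ hz1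
          have : ‖(f - db^[n] (cj (F k)) : 𝓢(ℂ, ℂ)) z‖ ≤ ‖e‖ := by
            rw [← hn2]
            exact le_mul_of_one_le_left (norm_nonneg _) hz3
          linarith
      · obtain ⟨e, he1, he2, he3⟩ := key z hz
        rw [he3 (Or.inr hz2), mul_zero, neg_zero] at he1
        rcases mul_eq_zero.1 he1 with h' | h'
        · exact absurd h' (pow_ne_zero _ (Complex.ofReal_ne_zero.2 (Complex.normSq_pos.2 hz).ne'))
        · exact h'
    have hl : Tendsto (fun k : ℕ => ENNReal.ofReal (C₀ * √(2 * Real.pi) / √(R + 1 + k))) atTop (𝓝 0) := by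
      rw [← ENNReal.ofReal_zero]
      apply ENNReal.tendsto_ofReal
      apply Tendsto.div_atTop tendsto_const_nhds
      apply Real.tendsto_sqrt_atTop.comp
      exact tendsto_atTop_add_const_left _ _ tendsto_natCast_atTop_atTop
    exact tendsto_of_tendsto_of_tendsto_of_le_of_le tendsto_const_nhds hl (fun _ => zero_le) hsmall

end Pool.Agent.R892.BR
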