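import Pool.Agent.R892.BR.Ineq

/-! # The storage function of a chain of averaging operators -/

set_option autoImplicit false

open Set MeasureTheory

namespace Pool.Agent.R892.BR

theorem support_int (F : ℝ → ℝ) (δ R : ℝ) (hδ : 0 < δ) (hR : δ ≤ R)
    (h0 : ∀ s, 0 < s → (s ≤ δ ∨ R ≤ s) → F s = 0) :
    ∫ s in Ioi (0 : ℝ), F s = ∫ s in δ..R, F s := by
  rw [intervalIntegral.integral_of_le hR]
  apply setIntegral_eq_of_subset_of_forall_sdiff_eq_zero measurableSet_Ioi
  · intro s hs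
    exact lt_trans hδ hs.1
  · intro s hs
    apply h0 s hs.1
    by_contra hcon
    push Not at hcon
    exact hs.2 ⟨hcon.1, hcon.2.le⟩

/-- integrated form of the pointwise inequality -/
theorem storage (r N A σ M δ R : ℝ) (hr : 1 ≤ r) (hN : 0 ≤ N) (hA : 0 < A) (hσ : 1 ≤ σ)
    (hM : (r - 1) * σ * A ≤ r * M - 1) (hδ : 0 < δ) (hR : δ ≤ R)
    (Q Q' α γ : ℝ → ℝ) (hQ : ∀ s, 0 < s → 0 ≤ Q s) (hα : ∀ s, 0 < s → 0 ≤ α s)
    (hγ : ∀ s, 0 < s → 0 ≤ γ s)
    (hQd : ∀ s, 0 < s → HasDerivAt Q (Q' s) s)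
    (hQ' : ∀ s, 0 < s → s * Q' s ≤ σ * α s ^ 2 - γ s ^ 2 - M * Q s)
    (h : ∀ s, 0 < s → γ s ≤ α s + √(N * Q s))
    (hQδ : Q δ = 0) (hQR : Q R = 0)
    (hα0 : ∀ s, 0 < s → (s ≤ δ ∨ R ≤ s) → α s = 0)
    (hγ0 : ∀ s, 0 < s → (s ≤ δ ∨ R ≤ s) → γ s = 0)
    (hαc : ContinuousOn α (Ioi 0)) (hγc : ContinuousOn γ (Ioi 0)) :
    ∫ s in Ioi (0 : ℝ), γ s ^ (2 * r) ≤
      σ * (1 + √(N / A)) ^ (2 * r - 2) * ∫ s in Ioi (0 : ℝ), α s ^ (2 * r) := by
  have hr0 : 0 < 2 * r := by linarith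
  rw [support_int _ δ R hδ hR (fun s hs hs' => by rw [hγ0 s hs hs', Real.zero_rpow hr0.ne']),
    support_int _ δ R hδ hR (fun s hs hs' => by rw [hα0 s hs hs', Real.zero_rpow hr0.ne'])]
  set L := (1 + √(N / A)) ^ (2 * r - 2) with hL
  have hL0 : 0 ≤ L := Real.rpow_nonneg (by positivity) _
  have hsub : uIcc δ R ⊆ Ioi 0 := by
    rw [uIcc_of_le hR]
    intro s hs
    exact lt_of_lt_of_le hδ hs.1
  have hsub' : Icc δ R ⊆ Ioi 0 := fun s hs => lt_of_lt_of_le hδ hs.1
  have c1 : ContinuousOn (fun s => α s ^ (2 * r)) (Ioi 0) :=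
    hαc.rpow_const (fun s _ => Or.inr hr0.le)
  have c2 : ContinuousOn (fun s => γ s ^ (2 * r)) (Ioi 0) :=
    hγc.rpow_const (fun s _ => Or.inr hr0.le)
  have i1 : IntervalIntegrable (fun s => α s ^ (2 * r)) volume δ R :=
    (c1.mono hsub).intervalIntegrable
  have i2 : IntervalIntegrable (fun s => γ s ^ (2 * r)) volume δ R :=
    (c2.mono hsub).intervalIntegrable
  set V : ℝ → ℝ := fun s => L * A ^ (r - 1) * (s * Q s ^ r) with hV
  have hVd : ∀ s, 0 < s → HasDerivAt V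
      (L * A ^ (r - 1) * (Q s ^ r + s * (Q' s * r * Q s ^ (r - 1)))) s := by
    intro s hs
    have h1 : HasDerivAt (fun s => Q s ^ r) (Q' s * r * Q s ^ (r - 1)) s :=
      (hQd s hs).rpow_const (Or.inr hr)
    have h2 := ((hasDerivAt_id s).mul h1).const_mul (L * A ^ (r - 1))
    simpa using h2
  have hmain := intervalIntegral.sub_le_integral_of_hasDeriv_right_of_le (g := V)
    (g' := fun s => L * A ^ (r - 1) * (Q s ^ r + s * (Q' s * r * Q s ^ (r - 1))))
    (φ := fun s => σ * L * α s ^ (2 * r) - γ s ^ (2 * r)) hR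
    (fun s hs => (hVd s (hsub' hs)).continuousAt.continuousWithinAt)
    (fun s hs => (hVd s (lt_trans hδ hs.1)).hasDerivWithinAt)
    (((continuousOn_const.mul c1).sub c2).mono hsub').integrableOn_Icc
    (fun s hs => by
      have hs0 : 0 < s := lt_trans hδ hs.1
      have k := pointwise r N A σ M (Q s) (α s) (γ s) hr hN hA hσ hM (hQ s hs0) (hα s hs0)
        (hγ s hs0) (h s hs0)
      rw [← hL] at k
      have k1 := hQ' s hs0
      have hP : 0 ≤ L * A ^ (r - 1) * (r * Q s ^ (r - 1)) := by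
        have := hQ s hs0
        positivity
      have k2 := mul_le_mul_of_nonneg_left k1 hP
      have k3 : Q s ^ (r - 1) * Q s = Q s ^ r := by
        rcases eq_or_lt_of_le (hQ s hs0) with h0 | h0
        · rw [← h0, mul_zero, Real.zero_rpow (by linarith)]
        · rw [← Real.rpow_add_one h0.ne']
          congr 1
          ring
      have k4 : L * A ^ (r - 1) * (r * Q s ^ (r - 1)) * (M * Q s) =
        L * A ^ (r - 1) * (r * M * Q s ^ r) := by rw [← k3]; ring
      nlinarith)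
  have hVδ : V δ = 0 := by
    rw [hV]
    simp only
    rw [hQδ, Real.zero_rpow (by linarith)]
    ring
  have hVR : V R = 0 := by
    rw [hV]
    simp only
    rw [hQR, Real.zero_rpow (by linarith)]
    ring
  rw [hVδ, hVR, intervalIntegral.integral_sub (i1.const_mul _) i2,
    intervalIntegral.integral_const_mul] at hmain
  linarith

theorem sum_id (ν : ℝ) (f : ℕ → ℝ) (k : ℕ) :
    ∑ j ∈ Finset.range k, (ν - j) * (f j - f (j + 1)) =
      ν * f 0 - (ν - k) * f k - ∑ j ∈ Finset.range k, f (j + 1) := by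
  induction k with
  | zero => simp
  | succ k ih =>
    rw [Finset.sum_range_succ, ih, Finset.sum_range_succ]
    push_cast
    ring

theorem pt_alg (w g : ℂ) (b s : ℝ) (hs : 0 < s) :
    (2 * b - 1) * (2 * inner ℝ g ((w - (b : ℂ) * g) / (s : ℂ))) =
      (‖w‖ ^ 2 - ‖w - ((2 * b - 1 : ℝ) : ℂ) * g‖ ^ 2 - (2 * b - 1) * ‖g‖ ^ 2) / s := by
  rw [Complex.inner]
  have h1 : (w - (b : ℂ) * g) / (s : ℂ) = ((s⁻¹ : ℝ) : ℂ) * (w - (b : ℂ) * g) := by
    push_cast
    rw [div_eq_mul_inv, mul_comm]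
  rw [h1, Complex.sq_norm, Complex.sq_norm, Complex.sq_norm, Complex.normSq_apply,
    Complex.normSq_apply, Complex.normSq_apply]
  simp only [Complex.mul_re, Complex.mul_im, Complex.sub_re, Complex.sub_im, Complex.ofReal_re,
    Complex.ofReal_im, Complex.conj_re, Complex.conj_im]
  field_simp
  ring

theorem par (x y : ℂ) : 1 / 2 * ‖x - y‖ ^ 2 ≤ ‖x‖ ^ 2 + ‖y‖ ^ 2 := by
  rw [Complex.sq_norm, Complex.sq_norm, Complex.sq_norm, Complex.normSq_apply,
    Complex.normSq_apply, Complex.normSq_apply, Complex.sub_re, Complex.sub_im]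
  nlinarith [sq_nonneg (x.re + y.re), sq_nonneg (x.im + y.im)]

/-- **the bound for a chain** -/
theorem chain_bound (ν : ℕ) (hν : 1 ≤ ν) (κ η₀ r δ R : ℝ) (hκ : 0 ≤ κ) (hη₀ : 0 ≤ η₀) (hr : 1 ≤ r)
    (hδ : 0 < δ) (hR : δ ≤ R) (w g : ℕ → ℝ → ℂ)
    (hg : ∀ j, j < ν → ∀ s, 0 < s → HasDerivAt (g j)
      ((w j s - ((κ + j + 1 : ℝ) : ℂ) * g j s) / (s : ℂ)) s)
    (hw : ∀ j, j < ν → ∀ s, 0 < s → w (j + 1) s = w j s - ((2 * (κ + j + 1) - 1 : ℝ) : ℂ) * g j s)
    (hgδ : ∀ j, j < ν → g j δ = 0) (hgR : ∀ j, j < ν → g j R = 0)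
    (h0 : ∀ s, 0 < s → (s ≤ δ ∨ R ≤ s) → w 0 s = 0)
    (h1 : ∀ s, 0 < s → (s ≤ δ ∨ R ≤ s) → w ν s = 0)
    (c0 : ContinuousOn (w 0) (Ioi 0)) (c1 : ContinuousOn (w ν) (Ioi 0)) :
    ∫ s in Ioi (0 : ℝ), ‖w ν s‖ ^ (2 * r) ≤
      (1 + η₀ * ((r - 1) / r) * (1 + 1 / (2 * ν))) *
      (1 + √(ν * (ν + 2 * κ) / ((1 + η₀ * (2 * κ + 1) / (4 * ν * (1 + η₀))) /
        (1 + η₀ * (1 + 1 / (2 * ν)))))) ^ (2 * r - 2) *
      ∫ s in Ioi (0 : ℝ), ‖w 0 s‖ ^ (2 * r) := by
  have hν0 : (0 : ℝ) < ν := by exact_mod_cast hν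
  set η := η₀ * ((r - 1) / r) with hη
  have hr0 : 0 < r := by linarith
  have hη1 : 0 ≤ η := mul_nonneg hη₀ (div_nonneg (by linarith) hr0.le)
  have hη2 : η ≤ η₀ := mul_le_of_le_one_right hη₀ ((div_le_one hr0).2 (by linarith))
  set A := (1 + η₀ * (2 * κ + 1) / (4 * ν * (1 + η₀))) / (1 + η₀ * (1 + 1 / (2 * ν))) with hA
  have hA0 : 0 < A := by positivity
  set β : ℕ → ℝ := fun j => 2 * (κ + j + 1) - 1 with hβ
  have hβ0 : ∀ j, 2 * κ + 1 ≤ β j := by
    intro j
    have : (0 : ℝ) ≤ j := Nat.cast_nonneg j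
    simp only [hβ]
    linarith
  have hβ1 : ∀ j, 0 ≤ β j := fun j => le_trans (by linarith) (hβ0 j)
  have hN : ∀ k : ℕ, ∑ j ∈ Finset.range k, β j = k * (k + 2 * κ) := by
    intro k
    induction k with
    | zero => simp
    | succ k ih =>
      rw [Finset.sum_range_succ, ih]
      simp only [hβ]
      push_cast
      ring
  set e : ℕ → ℝ → ℝ := fun j s => β j * ‖g j s‖ ^ 2 with he
  have he0 : ∀ j s, 0 ≤ e j s := fun j s => mul_nonneg (hβ1 j) (sq_nonneg _)
  set c : ℕ → ℝ := fun j => 1 + η / ν * (ν - j) with hc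
  have hc1 : ∀ j, j < ν → 1 ≤ c j := by
    intro j hj
    have hj' : (j : ℝ) ≤ ν := by exact_mod_cast hj.le
    simp only [hc]
    have : 0 ≤ η / ν * (ν - j) := mul_nonneg (by positivity) (by linarith)
    linarith
  have hc2 : ∀ j, c j ≤ 1 + η := by
    intro j
    have hj' : (0 : ℝ) ≤ j := Nat.cast_nonneg j
    simp only [hc]
    have : η / ν * (ν - j) ≤ η / ν * ν := mul_le_mul_of_nonneg_left (by linarith) (by positivity)
    have h2 : η / ν * ν = η := by field_simp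
    linarith
  set f : ℕ → ℝ → ℝ := fun j s => ‖w j s‖ ^ 2 with hf
  set Q : ℝ → ℝ := fun s => ∑ j ∈ Finset.range ν, c j * e j s with hQ
  set Q' : ℝ → ℝ := fun s => ∑ j ∈ Finset.range ν, c j * ((f j s - f (j + 1) s - e j s) / s) with hQ'
  have hed : ∀ j, j < ν → ∀ s, 0 < s → HasDerivAt (e j) ((f j s - f (j + 1) s - e j s) / s) s := by
    intro j hj s hs
    have k1 := ((hg j hj s hs).norm_sq).const_mul (β j)
    have k2 := pt_alg (w j s) (g j s) (κ + j + 1) s hs
    simp only [hf, he]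
    rw [hw j hj s hs, ← k2]
    exact k1
  have hQd : ∀ s, 0 < s → HasDerivAt Q (Q' s) s := by
    intro s hs
    apply HasDerivAt.fun_sum
    intro j hj
    exact (hed j (Finset.mem_range.1 hj) s hs).const_mul (c j)
  have hQ0 : ∀ s, 0 ≤ Q s := by
    intro s
    apply Finset.sum_nonneg
    intro j hj
    exact mul_nonneg (by linarith [hc1 j (Finset.mem_range.1 hj)]) (he0 j s)
  have hDQ : ∀ s, ∑ j ∈ Finset.range ν, e j s ≤ Q s := by
    intro s
    apply Finset.sum_le_sum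
    intro j hj
    exact le_mul_of_one_le_left (he0 j s) (hc1 j (Finset.mem_range.1 hj))
  have hQD : ∀ s, Q s ≤ (1 + η) * ∑ j ∈ Finset.range ν, e j s := by
    intro s
    rw [Finset.mul_sum]
    apply Finset.sum_le_sum
    intro j hj
    exact mul_le_mul_of_nonneg_right (hc2 j) (he0 j s)
  set M : ℝ := 1 + η * (2 * κ + 1) / (4 * ν * (1 + η)) with hM
  have hM' : (r - 1) * (1 + η * (1 + 1 / (2 * ν))) * A ≤ r * M - 1 := by
    have k1 : r * M - 1 = (r - 1) * (1 + η₀ * (2 * κ + 1) / (4 * ν * (1 + η))) := by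
      rw [hM, hη]
      field_simp
      ring
    have k2 : (1 + η * (1 + 1 / (2 * ν))) * A ≤ (1 + η₀ * (1 + 1 / (2 * ν))) * A := by
      gcongr
    have k3 : (1 + η₀ * (1 + 1 / (2 * ν))) * A = 1 + η₀ * (2 * κ + 1) / (4 * ν * (1 + η₀)) := by
      rw [hA]
      field_simp
    have k4 : η₀ * (2 * κ + 1) / (4 * ν * (1 + η₀)) ≤ η₀ * (2 * κ + 1) / (4 * ν * (1 + η)) := by
      gcongr
    rw [k1, mul_assoc]
    apply mul_le_mul_of_nonneg_left _ (by linarith)
    linarith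
  have hrate : ∀ s, 0 < s → s * Q' s ≤ (1 + η * (1 + 1 / (2 * ν))) * ‖w 0 s‖ ^ 2 -
      ‖w ν s‖ ^ 2 - M * Q s := by
    intro s hs
    have k1 : s * Q' s = ∑ j ∈ Finset.range ν, c j * (f j s - f (j + 1) s) - Q s := by
      simp only [hQ', hQ]
      rw [Finset.mul_sum, ← Finset.sum_sub_distrib]
      apply Finset.sum_congr rfl
      intro j _
      field_simp
    have k2 : ∑ j ∈ Finset.range ν, c j * (f j s - f (j + 1) s) =
        (1 + η) * f 0 s - f ν s - η / ν * ∑ j ∈ Finset.range ν, f (j + 1) s := by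
      have k3 := sum_id ν (fun j => f j s) ν
      have k4 := Finset.sum_range_sub' (fun j => f j s) ν
      have k5 : ∑ j ∈ Finset.range ν, c j * (f j s - f (j + 1) s) =
        ∑ j ∈ Finset.range ν, (f j s - f (j + 1) s) + η / ν *
          ∑ j ∈ Finset.range ν, ((ν : ℝ) - j) * (f j s - f (j + 1) s) := by
        rw [Finset.mul_sum, ← Finset.sum_add_distrib]
        apply Finset.sum_congr rfl
        intro j _
        simp only [hc]
        ring
      rw [k5, k4, k3]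
      field_simp
      ring
    have k6 : (2 * κ + 1) / 4 * ∑ j ∈ Finset.range ν, e j s - 1 / 2 * f 0 s ≤
        ∑ j ∈ Finset.range ν, f (j + 1) s := by
      have k7 := Finset.sum_range_sub' (fun j => f j s) ν
      rw [Finset.sum_sub_distrib] at k7
      have k8 : (2 * κ + 1) / 2 * ∑ j ∈ Finset.range ν, e j s ≤
          ∑ j ∈ Finset.range ν, (f j s + f (j + 1) s) := by
        rw [Finset.mul_sum]
        apply Finset.sum_le_sum
        intro j hj
        have k9 := par (w j s) (w (j + 1) s)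
        have k10 : w j s - w (j + 1) s = ((β j : ℝ) : ℂ) * g j s := by
          rw [hw j (Finset.mem_range.1 hj) s hs]
          ring
        rw [k10, norm_mul, Complex.norm_real, Real.norm_of_nonneg (hβ1 j), mul_pow] at k9
        refine le_trans ?_ k9
        have k11 : (2 * κ + 1) * e j s ≤ β j * e j s :=
          mul_le_mul_of_nonneg_right (hβ0 j) (he0 j s)
        have k12 : β j * e j s = β j ^ 2 * ‖g j s‖ ^ 2 := by
          simp only [he]
          ring
        linarith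
      rw [Finset.sum_add_distrib] at k8
      have k13 : 0 ≤ f ν s := sq_nonneg _
      linarith
    have k14 : Q s / (1 + η) ≤ ∑ j ∈ Finset.range ν, e j s := by
      rw [div_le_iff₀ (by linarith), mul_comm]
      exact hQD s
    have k15 : 0 ≤ η / ν := by positivity
    have k16 := mul_le_mul_of_nonneg_left k6 k15
    have k17 : (2 * κ + 1) / 4 * (Q s / (1 + η)) ≤ (2 * κ + 1) / 4 * ∑ j ∈ Finset.range ν, e j s :=
      mul_le_mul_of_nonneg_left k14 (by positivity)
    have k18 := mul_le_mul_of_nonneg_left k17 k15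
    rw [k1, k2]
    have k19 : M * Q s = Q s + η / ν * ((2 * κ + 1) / 4 * (Q s / (1 + η))) := by
      rw [hM]
      field_simp
    have k20 : (1 + η * (1 + 1 / (2 * ν))) * ‖w 0 s‖ ^ 2 = (1 + η) * f 0 s +
        η / ν * (1 / 2 * f 0 s) := by
      simp only [hf]
      field_simp
      ring
    have k21 : ‖w ν s‖ ^ 2 = f ν s := rfl
    rw [k19, k20, k21]
    rw [mul_sub] at k16
    linarith
  have hup : ∀ s, 0 < s → ‖w ν s‖ ≤ ‖w 0 s‖ + √(ν * (ν + 2 * κ) * Q s) := by
    intro s hs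
    have k1 : ∀ k : ℕ, k ≤ ν → ‖w k s‖ ≤ ‖w 0 s‖ + ∑ j ∈ Finset.range k, β j * ‖g j s‖ := by
      intro k
      induction k with
      | zero => intro _; simp
      | succ k ih =>
        intro hk
        rw [hw k (by omega) s hs, Finset.sum_range_succ]
        have k2 := ih (by omega)
        have k3 := norm_sub_le (w k s) (((2 * (κ + k + 1) - 1 : ℝ) : ℂ) * g k s)
        rw [norm_mul, Complex.norm_real, Real.norm_of_nonneg (hβ1 k)] at k3
        linarith
    have k4 : ∑ j ∈ Finset.range ν, β j * ‖g j s‖ ≤ √(ν * (ν + 2 * κ) * Q s) := by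
      apply Real.le_sqrt_of_sq_le
      have k5 := Finset.sum_sq_le_sum_mul_sum_of_sq_le_mul (Finset.range ν)
        (r := fun j => β j * ‖g j s‖) (f := β) (g := fun j => e j s) (fun j _ => hβ1 j)
        (fun j _ => he0 j s) (fun j _ => le_of_eq (by simp only [he]; ring))
      refine k5.trans ?_
      rw [hN ν]
      exact mul_le_mul_of_nonneg_left (hDQ s) (by positivity)
    linarith [k1 ν le_rfl]
  have hg0 : ∀ s, (∀ j, j < ν → g j s = 0) → Q s = 0 := by
    intro s hs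
    apply Finset.sum_eq_zero
    intro j hj
    simp only [he]
    rw [hs j (Finset.mem_range.1 hj)]
    simp
  exact storage r (ν * (ν + 2 * κ)) A (1 + η * (1 + 1 / (2 * ν))) M δ R hr (by positivity) hA0
    (by
      have : 0 ≤ η * (1 + 1 / (2 * (ν : ℝ))) := by positivity
      linarith) hM' hδ hR Q Q' (fun s => ‖w 0 s‖) (fun s => ‖w ν s‖)
    (fun s _ => hQ0 s) (fun s _ => norm_nonneg _) (fun s _ => norm_nonneg _) hQd hrate hup
    (hg0 δ hgδ) (hg0 R hgR) (fun s hs hs' => by rw [h0 s hs hs', norm_zero])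
    (fun s hs hs' => by rw [h1 s hs hs', norm_zero]) c0.norm c1.norm

end Pool.Agent.R892.BR
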