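import Pool.Agent.R892.BR.Class
import Pool.Agent.Y282.RB.N

/-! # The constants -/

set_option autoImplicit false

open Set MeasureTheory
open scoped SchwartzMap ENNReal

namespace Pool.Agent.R892.BR

open Pool.Agent.Y282.RB (Tn Cn)

theorem exp_le (x : ℝ) (h0 : 0 ≤ x) (h1 : x < 1) : Real.exp (2 * x) ≤ (1 + x) / (1 - x) := by
  have a1 : |x| < 1 := by rw [abs_of_nonneg h0]; exact h1
  have s1 := Real.hasSum_log_sub_log_of_abs_lt_one a1
  have h2 := sum_le_hasSum {0} (fun k _ => by positivity) s1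
  rw [Finset.sum_singleton] at h2
  have h3 : 2 * x ≤ Real.log ((1 + x) / (1 - x)) := by
    rw [Real.log_div (by linarith) (by linarith)]
    norm_num at h2
    linarith
  exact (Real.le_log_iff_exp_le (div_pos (by linarith) (by linarith))).1 h3

theorem step_exp (n : ℕ) (hn : 2 ≤ n) :
    ((n : ℝ) + 13 / 12) / (n + 1 / 12) ≤ Real.exp (2 / (2 * n + 1)) := by
  have hn' : (2 : ℝ) ≤ n := by exact_mod_cast hn
  refine le_trans ?_ (Real.quadratic_le_exp_of_nonneg (by positivity))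
  rw [div_le_iff₀ (by positivity)]
  have h : (1 + 2 / (2 * (n : ℝ) + 1) + (2 / (2 * (n : ℝ) + 1)) ^ 2 / 2) * (n + 1 / 12) -
    (n + 13 / 12) = (4 * n - 8) / (12 * (2 * n + 1) ^ 2) := by
    field_simp
    ring
  have h2 : 0 ≤ (4 * (n : ℝ) - 8) / (12 * (2 * n + 1) ^ 2) := div_nonneg (by linarith) (by positivity)
  linarith

theorem factor_eq (p : ℝ) (hp : 2 ≤ p) (j : ℕ) :
    Real.exp (2 / (2 * j + 1)) ^ (1 - 2 / p) ≤ ((j : ℝ) + 1 - 1 / p) / ((j : ℝ) + 1 / p) := by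
  have hp0 : 0 < p := by linarith
  have hj : (0 : ℝ) ≤ j := Nat.cast_nonneg j
  have h2p : 2 / p ≤ 1 := by rw [div_le_one hp0]; exact hp
  have h2p' : 0 < 2 / p := by positivity
  rw [← Real.exp_mul]
  have e1 : 2 / (2 * (j : ℝ) + 1) * (1 - 2 / p) = 2 * ((1 - 2 / p) / (2 * j + 1)) := by ring
  rw [e1]
  have hx1 : (1 - 2 / p) / (2 * (j : ℝ) + 1) < 1 := by
    rw [div_lt_one (by positivity)]
    linarith
  refine (exp_le _ (div_nonneg (by linarith) (by positivity)) hx1).trans (le_of_eq ?_)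
  have hd1 : 1 - (1 - 2 / p) / (2 * (j : ℝ) + 1) ≠ 0 := by linarith
  have hd2 : (j : ℝ) + 1 / p ≠ 0 := by positivity
  rw [div_eq_div_iff hd1 hd2]
  field_simp
  ring

theorem Cn_lower (n : ℕ) (hn : 2 ≤ n) (p : ℝ) (hp : 2 ≤ p) :
    (34 / 5 * ((n : ℝ) + 1 / 12)) ^ (1 - 2 / p) ≤ Cn p n := by
  have hp0 : 0 < p := by linarith
  have h2p : 2 / p ≤ 1 := by rw [div_le_one hp0]; exact hp
  have hy : 0 ≤ 1 - 2 / p := by linarith
  induction n, hn using Nat.le_induction with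
  | base =>
    unfold Cn
    rw [Finset.prod_range_succ, Finset.prod_range_one]
    have h1 := factor_eq p hp 0
    have h2 := factor_eq p hp 1
    have h3 := mul_le_mul h1 h2 (by positivity) (le_trans (by positivity) h1)
    refine le_trans ?_ h3
    rw [← Real.mul_rpow (Real.exp_pos _).le (Real.exp_pos _).le, ← Real.exp_add]
    apply Real.rpow_le_rpow (by positivity) _ hy
    have h4 : Real.exp (2 / (2 * ((0 : ℕ) : ℝ) + 1) + 2 / (2 * ((1 : ℕ) : ℝ) + 1)) = Real.exp (8 / 3) := by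
      congr 1
      norm_num
    rw [h4]
    have h5 : Real.exp (8 / 3) ^ 3 = Real.exp 1 ^ 8 := by
      rw [← Real.exp_nat_mul, ← Real.exp_nat_mul]
      congr 1
      norm_num
    have h6 := Real.exp_one_gt_d9
    have h7 : (2.7182818283 : ℝ) ^ 8 ≤ Real.exp 1 ^ 8 := by gcongr
    by_contra hcon
    push Not at hcon
    have h8 : Real.exp (8 / 3) ^ 3 < (34 / 5 * (((2 : ℕ) : ℝ) + 1 / 12)) ^ 3 :=
      pow_lt_pow_left₀ hcon (Real.exp_pos _).le (by norm_num)
    rw [h5] at h8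
    norm_num at h8 h7
    linarith
  | succ n hn ih =>
    have hn' : (2 : ℝ) ≤ n := by exact_mod_cast hn
    unfold Cn at ih ⊢
    rw [Finset.prod_range_succ]
    have h1 := factor_eq p hp n
    have h2 : (((n : ℝ) + 13 / 12) / (n + 1 / 12)) ^ (1 - 2 / p) ≤
        Real.exp (2 / (2 * n + 1)) ^ (1 - 2 / p) :=
      Real.rpow_le_rpow (by positivity) (step_exp n hn) hy
    have h3 := mul_le_mul ih (h2.trans h1) (by positivity) (le_trans (by positivity) ih)
    refine le_trans (le_of_eq ?_) h3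
    rw [← Real.mul_rpow (by positivity) (by positivity)]
    congr 1
    push_cast
    field_simp
    ring

theorem exp_small : Real.exp (5 / 24) ≤ 1.235 := by
  by_contra hcon
  push Not at hcon
  have h1 : (1.235 : ℝ) ^ 24 < Real.exp (5 / 24) ^ 24 := pow_lt_pow_left₀ hcon (by norm_num) (by norm_num)
  have h2 : Real.exp (5 / 24) ^ 24 = Real.exp 1 ^ 5 := by
    rw [← Real.exp_nat_mul, ← Real.exp_nat_mul]
    congr 1
    norm_num
  have h3 := Real.exp_one_lt_d9
  have h4 : Real.exp 1 ^ 5 ≤ (2.7182818286 : ℝ) ^ 5 := by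
    have := (Real.exp_pos 1).le
    gcongr
  rw [h2] at h1
  norm_num at h1 h4
  linarith

theorem OneDim.mono {n m : ℕ} {p K K' : ℝ} (h : OneDim n m p K) (hK : K ≤ K') : OneDim n m p K' := by
  intro δ R hδ hR f
  refine (h δ R hδ hR f).trans ?_
  apply mul_le_mul_of_nonneg_right hK
  apply integral_nonneg
  intro s
  positivity

/-- the first constant -/
theorem oneDim_a (n m : ℕ) (hn : 1 ≤ n) (p : ℝ) (hp : 2 ≤ p) :
    OneDim n m p ((1 + √(n * (n + m))) ^ (p - 2)) := by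
  intro δ R hδ hR h
  have k := oneD hδ hR h n m hn 0 (p / 2) le_rfl (by linarith)
  have e1 : 2 * (p / 2) = p := by ring
  have e2 : (n : ℝ) * (n + 2 * ((m : ℝ) / 2)) = n * (n + m) := by ring
  rw [e1, e2] at k
  simpa using k

/-- the second constant -/
theorem oneDim_b (n m : ℕ) (hn : 2 ≤ n) (p : ℝ) (hp : 2 ≤ p) :
    OneDim n m p ((13 / 2 * n) ^ (p - 2)) := by
  have hn' : (2 : ℝ) ≤ n := by exact_mod_cast hn
  have hn0 : (0 : ℝ) < n := by linarith
  have hm : (0 : ℝ) ≤ m := Nat.cast_nonneg m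
  intro δ R hδ hR h
  have k := oneD hδ hR h n m (by omega) (1 / 3) (p / 2) (by norm_num) (by linarith)
  have e1 : 2 * (p / 2) = p := by ring
  rw [e1] at k
  refine k.trans ?_
  apply mul_le_mul_of_nonneg_right _ (integral_nonneg fun s => by positivity)
  have hnn : 1 / (2 * (n : ℝ)) ≤ 1 / 4 := by
    apply one_div_le_one_div_of_le <;> linarith
  have hnn0 : 0 < 1 / (2 * (n : ℝ)) := by positivity
  -- first factor
  have h1 : 1 + 1 / 3 * ((p / 2 - 1) / (p / 2)) * (1 + 1 / (2 * (n : ℝ))) ≤ 1.235 ^ (p - 2) := by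
    have q1 : (p / 2 - 1) / (p / 2) ≤ (p - 2) / 2 := by
      rw [div_le_iff₀ (by linarith)]
      nlinarith
    have q0 : 0 ≤ (p / 2 - 1) / (p / 2) := div_nonneg (by linarith) (by linarith)
    have q2 : 1 / 3 * ((p / 2 - 1) / (p / 2)) * (1 + 1 / (2 * (n : ℝ))) ≤ 1 / 3 * ((p - 2) / 2) * (5 / 4) := by
      apply mul_le_mul _ (by linarith) (by positivity) (by nlinarith)
      linarith
    have q3 : 1 + 5 / 24 * (p - 2) ≤ Real.exp (5 / 24 * (p - 2)) := by
      have := Real.add_one_le_exp (5 / 24 * (p - 2))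
      linarith
    have q4 : Real.exp (5 / 24 * (p - 2)) ≤ 1.235 ^ (p - 2) := by
      rw [Real.exp_mul]
      exact Real.rpow_le_rpow (Real.exp_pos _).le exp_small (by linarith)
    linarith
  -- second factor
  have h2 : (n : ℝ) * (n + 2 * ((m : ℝ) / 2)) / ((1 + 1 / 3 * (2 * ((m : ℝ) / 2) + 1) /
      (4 * n * (1 + 1 / 3))) / (1 + 1 / 3 * (1 + 1 / (2 * n)))) ≤ (4.762 * n) ^ 2 := by
    have hX : 0 < 1 + 1 / 3 * (2 * ((m : ℝ) / 2) + 1) / (4 * n * (1 + 1 / 3)) := by positivity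
    have hY : 0 < 1 + 1 / 3 * (1 + 1 / (2 * (n : ℝ))) := by positivity
    have hY2 : 1 + 1 / 3 * (1 + 1 / (2 * (n : ℝ))) ≤ 17 / 12 := by linarith
    rw [div_div_eq_mul_div, div_le_iff₀ hX]
    have r1 : (n : ℝ) * (n + 2 * ((m : ℝ) / 2)) * (1 + 1 / 3 * (1 + 1 / (2 * n))) ≤
        (n : ℝ) * (n + 2 * ((m : ℝ) / 2)) * (17 / 12) :=
      mul_le_mul_of_nonneg_left hY2 (by positivity)
    have r2 : (4.762 * (n : ℝ)) ^ 2 * (1 + 1 / 3 * (2 * ((m : ℝ) / 2) + 1) / (4 * n * (1 + 1 / 3))) =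
        4.762 ^ 2 * (n ^ 2 + n * (m + 1) / 16) := by
      field_simp
      ring
    rw [r2]
    refine r1.trans ?_
    have r3 : (68 / 3 : ℝ) * (n ^ 2 + n * (m + 1) / 16) ≤ 4.762 ^ 2 * (n ^ 2 + n * (m + 1) / 16) := by
      apply mul_le_mul_of_nonneg_right _ (by positivity)
      norm_num
    nlinarith
  have h3 := Real.sqrt_le_sqrt h2
  rw [Real.sqrt_sq (by positivity)] at h3
  have h4 : 1 + √((n : ℝ) * (n + 2 * ((m : ℝ) / 2)) / ((1 + 1 / 3 * (2 * ((m : ℝ) / 2) + 1) /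
      (4 * n * (1 + 1 / 3))) / (1 + 1 / 3 * (1 + 1 / (2 * n))))) ≤ 5.262 * n := by linarith
  have h5 := Real.rpow_le_rpow (z := p - 2) (by positivity) h4 (by linarith)
  have h6 := mul_le_mul h1 h5 (by positivity) (by positivity)
  refine h6.trans ?_
  rw [← Real.mul_rpow (by norm_num) (by positivity)]
  apply Real.rpow_le_rpow (by positivity) _ (by linarith)
  linarith

end Pool.Agent.R892.BR
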