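import Mathlib

/-! # Pointwise inequalities for the chain of averaging operators -/

set_option autoImplicit false

open Set

namespace Pool.Agent.R892.BR

theorem jensen (s ρ x : ℝ) (hs : 1 ≤ s) (hρ : 0 ≤ ρ) (hx : 0 ≤ x) :
    (x + ρ) ^ s ≤ (1 + ρ) ^ (s - 1) * (x ^ s + ρ) := by
  have hK : 0 < 1 + ρ := by linarith
  have hc : ConvexOn ℝ (Ici 0) fun x : ℝ => x ^ s := convexOn_rpow hs
  have ha : 0 ≤ 1 / (1 + ρ) := by positivity
  have hb : 0 ≤ ρ / (1 + ρ) := by positivity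
  have hab : 1 / (1 + ρ) + ρ / (1 + ρ) = 1 := by field_simp
  have h := hc.2 (show x ∈ Ici (0 : ℝ) from hx) (show (1 : ℝ) ∈ Ici (0 : ℝ) by simp) ha hb hab
  simp only [smul_eq_mul, Real.one_rpow, mul_one] at h
  have e1 : 1 / (1 + ρ) * x + ρ / (1 + ρ) = (x + ρ) / (1 + ρ) := by field_simp
  rw [e1, Real.div_rpow (by linarith) hK.le, div_le_iff₀ (Real.rpow_pos_of_pos hK _)] at h
  have e2 : (1 + ρ) ^ s = (1 + ρ) ^ (s - 1) * (1 + ρ) := by
    rw [← Real.rpow_add_one hK.ne']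
    congr 1
    ring
  rw [e2] at h
  refine h.trans (le_of_eq ?_)
  field_simp

theorem upper (q ρ α : ℝ) (hq : 2 ≤ q) (hρ : 0 ≤ ρ) (hα : 0 ≤ α) :
    (α + ρ) ^ q ≤ (1 + ρ) ^ (q - 2) * (α ^ q + q * α * ρ + q / 2 * ρ ^ 2 + (q / 2 - 1)) := by
  have hK : 0 < 1 + ρ := by linarith
  set H : ℝ → ℝ := fun x => (1 + ρ) ^ (q - 2) * (x ^ q + q * x * ρ + q / 2 * ρ ^ 2 + (q / 2 - 1)) -
    (x + ρ) ^ q with hH
  have hd : ∀ x : ℝ, 0 < x → HasDerivAt H
      ((1 + ρ) ^ (q - 2) * (q * x ^ (q - 1) + q * ρ) - q * (x + ρ) ^ (q - 1)) x := by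
    intro x hx
    have h1 : HasDerivAt (fun x : ℝ => x ^ q) (q * x ^ (q - 1)) x :=
      Real.hasDerivAt_rpow_const (Or.inl hx.ne')
    have h2 : HasDerivAt (fun x : ℝ => (x + ρ) ^ q) (q * (x + ρ) ^ (q - 1)) x := by
      have h3 : HasDerivAt (fun x : ℝ => x + ρ) 1 x := (hasDerivAt_id x).add_const ρ
      have h4 := h3.rpow_const (p := q) (Or.inl (by positivity))
      simpa using h4
    have h5 : HasDerivAt (fun x : ℝ => q * x * ρ) (q * ρ) x := by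
      have := ((hasDerivAt_id x).const_mul q).mul_const ρ
      simpa using this
    have h6 := (((h1.add h5).add_const (q / 2 * ρ ^ 2)).add_const (q / 2 - 1)).const_mul ((1 + ρ) ^ (q - 2))
    exact h6.sub h2
  have hcont : ContinuousOn H (Ici 0) := by
    intro x hx
    have hx' : 0 ≤ x := hx
    apply ContinuousAt.continuousWithinAt
    have h1 : ContinuousAt (fun x : ℝ => x ^ q) x := Real.continuousAt_rpow_const _ _ (Or.inr (by linarith))
    have h2 : ContinuousAt (fun x : ℝ => (x + ρ) ^ q) x :=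
      (continuousAt_id.add continuousAt_const).rpow_const (Or.inr (by linarith))
    rw [hH]
    exact (continuousAt_const.mul (((h1.add (by fun_prop)).add (by fun_prop)).add (by fun_prop))).sub h2
  have hmono : MonotoneOn H (Ici 0) := by
    apply monotoneOn_of_deriv_nonneg (convex_Ici 0) hcont
    · intro x hx
      rw [interior_Ici] at hx
      exact (hd x hx).differentiableAt.differentiableWithinAt
    · intro x hx
      rw [interior_Ici] at hx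
      have hx' : 0 < x := hx
      rw [(hd x hx).deriv]
      have hj := jensen (q - 1) ρ x (by linarith) hρ hx'.le
      have e : q - 1 - 1 = q - 2 := by ring
      rw [e] at hj
      have hq0 : 0 ≤ q := by linarith
      nlinarith [mul_le_mul_of_nonneg_left hj hq0]
  have h0 : 0 ≤ H 0 := by
    rw [hH]
    simp only
    rw [Real.zero_rpow (by linarith)]
    have h1 : ρ ^ q ≤ (1 + ρ) ^ (q - 2) * ρ ^ 2 := by
      rcases eq_or_lt_of_le hρ with h | h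
      · rw [← h, Real.zero_rpow (by linarith)]
        simp
      · have h2 : ρ ^ q = ρ ^ (q - 2) * ρ ^ 2 := by
          rw [← Real.rpow_natCast ρ 2, ← Real.rpow_add h]
          congr 1
          push_cast
          ring
        rw [h2]
        have h3 : ρ ^ (q - 2) ≤ (1 + ρ) ^ (q - 2) :=
          Real.rpow_le_rpow hρ (by linarith) (by linarith)
        exact mul_le_mul_of_nonneg_right h3 (sq_nonneg ρ)
    have h2 : (1 : ℝ) ≤ (1 + ρ) ^ (q - 2) := Real.one_le_rpow (by linarith) (by linarith)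
    have h3 : (0 : ℝ) ≤ (1 + ρ) ^ (q - 2) := by linarith
    have h4 : 0 ≤ (q / 2 - 1) * (ρ ^ 2 + 1) := mul_nonneg (by linarith) (by positivity)
    have h5 := mul_nonneg h3 h4
    simp only [zero_add, mul_zero, zero_mul]
    nlinarith
  have h1 := hmono (a := 0) (by simp) hα hα
  have h2 : 0 ≤ H α := h0.trans h1
  rw [hH] at h2
  simp only at h2
  linarith

/-- normalised form -/
theorem key1 (r ρ α γ : ℝ) (hr : 1 ≤ r) (hρ : 0 ≤ ρ) (hα : 0 ≤ α) (hγ : 0 ≤ γ) (h : γ ≤ α + ρ) :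
    0 ≤ α ^ (2 * r) - r * α ^ 2 + (r - 1) ∧
    γ ^ (2 * r) - (1 + ρ) ^ (2 * r - 2) * r * γ ^ 2 ≤
      (1 + ρ) ^ (2 * r - 2) * (α ^ (2 * r) - r * α ^ 2 + (r - 1)) := by
  have hK : (1 : ℝ) ≤ (1 + ρ) ^ (2 * r - 2) := Real.one_le_rpow (by linarith) (by linarith)
  have hb : 0 ≤ α ^ (2 * r) - r * α ^ 2 + (r - 1) := by
    have h1 := one_add_mul_self_le_rpow_one_add (s := α ^ 2 - 1) (by nlinarith [sq_nonneg α]) hr
    have h2 : 1 + (α ^ 2 - 1) = α ^ 2 := by ring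
    rw [h2] at h1
    have h3 : (α ^ 2) ^ r = α ^ (2 * r) := by
      rw [← Real.rpow_natCast α 2, ← Real.rpow_mul hα]
      norm_num
    rw [h3] at h1
    linarith
  refine ⟨hb, ?_⟩
  have hY : 0 ≤ (1 + ρ) ^ (2 * r - 2) * (α ^ (2 * r) - r * α ^ 2 + (r - 1)) :=
    mul_nonneg (by linarith) hb
  have hU := upper (2 * r) ρ α (by linarith) hρ hα
  have hU' : (α + ρ) ^ (2 * r) - (1 + ρ) ^ (2 * r - 2) * r * (α + ρ) ^ 2 ≤
      (1 + ρ) ^ (2 * r - 2) * (α ^ (2 * r) - r * α ^ 2 + (r - 1)) := by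
    have e : (1 + ρ) ^ (2 * r - 2) * (α ^ (2 * r) - r * α ^ 2 + (r - 1)) +
        (1 + ρ) ^ (2 * r - 2) * r * (α + ρ) ^ 2 = (1 + ρ) ^ (2 * r - 2) *
          (α ^ (2 * r) + 2 * r * α * ρ + 2 * r / 2 * ρ ^ 2 + (2 * r / 2 - 1)) := by ring
    linarith
  rcases eq_or_lt_of_le (add_nonneg hα hρ) with h0 | h0
  · have hγ0 : γ = 0 := by linarith
    rw [hγ0, Real.zero_rpow (by linarith)]
    simpa using hY
  · set θ := (γ / (α + ρ)) ^ 2 with hθ
    have hd0 : 0 ≤ γ / (α + ρ) := by positivity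
    have hd1 : γ / (α + ρ) ≤ 1 := (div_le_one h0).2 h
    have hθ0 : 0 ≤ θ := sq_nonneg _
    have hθ1 : θ ≤ 1 := pow_le_one₀ hd0 hd1
    have e1 : γ ^ 2 = θ * (α + ρ) ^ 2 := by
      rw [hθ, div_pow]
      field_simp
    have e2 : γ ^ (2 * r) = (γ / (α + ρ)) ^ (2 * r) * (α + ρ) ^ (2 * r) := by
      rw [← Real.mul_rpow hd0 h0.le, div_mul_cancel₀ _ h0.ne']
    have e3 : (γ / (α + ρ)) ^ (2 * r) ≤ θ := by
      rw [hθ, ← Real.rpow_natCast (γ / (α + ρ)) 2]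
      exact Real.rpow_le_rpow_of_exponent_ge_of_imp hd0 hd1 (by push_cast; linarith)
        (fun _ h2 => by linarith)
    have h5 : 0 ≤ (α + ρ) ^ (2 * r) := Real.rpow_nonneg h0.le _
    have h6 := mul_le_mul_of_nonneg_right e3 h5
    rw [e1, e2]
    have h7 := mul_le_mul_of_nonneg_left hU' hθ0
    have h8 : θ * ((1 + ρ) ^ (2 * r - 2) * (α ^ (2 * r) - r * α ^ 2 + (r - 1))) ≤
      (1 + ρ) ^ (2 * r - 2) * (α ^ (2 * r) - r * α ^ 2 + (r - 1)) := mul_le_of_le_one_left hY hθ1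
    nlinarith

/-- homogeneous form -/
theorem key2 (r ρ t α γ : ℝ) (hr : 1 ≤ r) (hρ : 0 ≤ ρ) (ht : 0 < t) (hα : 0 ≤ α) (hγ : 0 ≤ γ)
    (h : γ ≤ α + ρ * t) :
    0 ≤ α ^ (2 * r) - r * t ^ (2 * r - 2) * α ^ 2 + (r - 1) * t ^ (2 * r) ∧
    γ ^ (2 * r) - (1 + ρ) ^ (2 * r - 2) * r * t ^ (2 * r - 2) * γ ^ 2 ≤
      (1 + ρ) ^ (2 * r - 2) * (α ^ (2 * r) - r * t ^ (2 * r - 2) * α ^ 2 + (r - 1) * t ^ (2 * r)) := by
  have h1 : γ / t ≤ α / t + ρ := by
    rw [div_add' _ _ _ ht.ne', div_le_div_iff_of_pos_right ht]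
    exact h
  obtain ⟨k1, k2⟩ := key1 r ρ (α / t) (γ / t) hr hρ (by positivity) (by positivity) h1
  have hT : 0 < t ^ (2 * r) := Real.rpow_pos_of_pos ht _
  have e1 : t ^ (2 * r) = t ^ (2 * r - 2) * t ^ 2 := by
    rw [← Real.rpow_natCast t 2, ← Real.rpow_add ht]
    congr 1
    push_cast
    ring
  have e2 : α ^ (2 * r) = (α / t) ^ (2 * r) * t ^ (2 * r) := by
    rw [← Real.mul_rpow (by positivity) ht.le, div_mul_cancel₀ _ ht.ne']
  have e3 : γ ^ (2 * r) = (γ / t) ^ (2 * r) * t ^ (2 * r) := by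
    rw [← Real.mul_rpow (by positivity) ht.le, div_mul_cancel₀ _ ht.ne']
  have e4 : α ^ 2 * t ^ (2 * r - 2) = (α / t) ^ 2 * t ^ (2 * r) := by
    rw [e1, div_pow]
    field_simp
  have e5 : γ ^ 2 * t ^ (2 * r - 2) = (γ / t) ^ 2 * t ^ (2 * r) := by
    rw [e1, div_pow]
    field_simp
  have f1 : α ^ (2 * r) - r * t ^ (2 * r - 2) * α ^ 2 + (r - 1) * t ^ (2 * r) =
      ((α / t) ^ (2 * r) - r * (α / t) ^ 2 + (r - 1)) * t ^ (2 * r) := by
    have : r * t ^ (2 * r - 2) * α ^ 2 = r * ((α / t) ^ 2 * t ^ (2 * r)) := by rw [← e4]; ring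
    rw [this, e2]
    ring
  have f2 : γ ^ (2 * r) - (1 + ρ) ^ (2 * r - 2) * r * t ^ (2 * r - 2) * γ ^ 2 =
      ((γ / t) ^ (2 * r) - (1 + ρ) ^ (2 * r - 2) * r * (γ / t) ^ 2) * t ^ (2 * r) := by
    have : (1 + ρ) ^ (2 * r - 2) * r * t ^ (2 * r - 2) * γ ^ 2 =
      (1 + ρ) ^ (2 * r - 2) * r * ((γ / t) ^ 2 * t ^ (2 * r)) := by rw [← e5]; ring
    rw [this, e3]
    ring
  rw [f1, f2]
  refine ⟨mul_nonneg k1 hT.le, ?_⟩
  have := mul_le_mul_of_nonneg_right k2 hT.le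
  linarith

/-- the pointwise inequality for the storage function -/
theorem pointwise (r N A σ M Q α γ : ℝ) (hr : 1 ≤ r) (hN : 0 ≤ N) (hA : 0 < A) (hσ : 1 ≤ σ)
    (hM : (r - 1) * σ * A ≤ r * M - 1) (hQ : 0 ≤ Q) (hα : 0 ≤ α) (hγ : 0 ≤ γ)
    (h : γ ≤ α + √(N * Q)) :
    γ ^ (2 * r) - σ * (1 + √(N / A)) ^ (2 * r - 2) * α ^ (2 * r) ≤
      -((1 + √(N / A)) ^ (2 * r - 2) * A ^ (r - 1)) *
        (r * Q ^ (r - 1) * (σ * α ^ 2 - γ ^ 2) - (r * M - 1) * Q ^ r) := by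
  set ρ := √(N / A) with hρ
  have hρ0 : 0 ≤ ρ := Real.sqrt_nonneg _
  have hK : (1 : ℝ) ≤ (1 + ρ) ^ (2 * r - 2) := Real.one_le_rpow (by linarith) (by linarith)
  rcases eq_or_lt_of_le hQ with h0 | h0
  · rw [← h0, mul_zero, Real.sqrt_zero, add_zero] at h
    rw [← h0]
    rcases eq_or_lt_of_le hr with h1 | h1
    · rw [← h1]
      norm_num
    · rw [Real.zero_rpow (by linarith), Real.zero_rpow (by linarith)]
      have h2 : γ ^ (2 * r) ≤ α ^ (2 * r) := Real.rpow_le_rpow hγ h (by linarith)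
      have h3 : 0 ≤ α ^ (2 * r) := Real.rpow_nonneg hα _
      have h4 : 1 ≤ σ * (1 + ρ) ^ (2 * r - 2) := one_le_mul_of_one_le_of_one_le hσ hK
      have h5 := mul_le_mul_of_nonneg_right h4 h3
      simp only [mul_zero, zero_mul, sub_zero]
      linarith
  · set t := √(Q * A) with ht
    have hQA : 0 < Q * A := mul_pos h0 hA
    have ht0 : 0 < t := Real.sqrt_pos.2 hQA
    have ht2 : t ^ 2 = Q * A := Real.sq_sqrt hQA.le
    have e1 : t ^ (2 * r - 2) = Q ^ (r - 1) * A ^ (r - 1) := by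
      have : 2 * r - 2 = ((2 : ℕ) : ℝ) * (r - 1) := by push_cast; ring
      rw [this, Real.rpow_mul ht0.le, Real.rpow_natCast, ht2, Real.mul_rpow h0.le hA.le]
    have e2 : t ^ (2 * r) = Q ^ (r - 1) * A ^ (r - 1) * (Q * A) := by
      rw [← e1, ← ht2, ← Real.rpow_natCast t 2, ← Real.rpow_add ht0]
      congr 1
      push_cast
      ring
    have e3 : Q ^ r = Q ^ (r - 1) * Q := by
      rw [← Real.rpow_add_one h0.ne']
      congr 1
      ring
    have e4 : ρ * t = √(N * Q) := by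
      rw [hρ, ht, ← Real.sqrt_mul (by positivity)]
      congr 1
      field_simp
    obtain ⟨k1, k2⟩ := key2 r ρ t α γ hr hρ0 ht0 hα hγ (by rw [e4]; exact h)
    have hK0 : 0 ≤ (1 + ρ) ^ (2 * r - 2) := by linarith
    have k3 : (1 + ρ) ^ (2 * r - 2) *
        (α ^ (2 * r) - r * t ^ (2 * r - 2) * α ^ 2 + (r - 1) * t ^ (2 * r)) ≤
        σ * ((1 + ρ) ^ (2 * r - 2) *
        (α ^ (2 * r) - r * t ^ (2 * r - 2) * α ^ 2 + (r - 1) * t ^ (2 * r))) :=
      le_mul_of_one_le_left (mul_nonneg hK0 k1) hσ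
    have hS : 0 ≤ (1 + ρ) ^ (2 * r - 2) * (Q ^ (r - 1) * A ^ (r - 1)) * Q := by positivity
    have k4 := mul_le_mul_of_nonneg_left hM hS
    rw [e1, e2] at k2 k3
    rw [e3]
    nlinarith

end Pool.Agent.R892.BR
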